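import Mathlib

set_option autoImplicit false

namespace Pool.Agent.W117.Box



/-- `f` commutes with the involutions `α` and `β`. -/
def Equivariant {X Y : Type} [TopologicalSpace X] [TopologicalSpace Y] (α : X → X) (β : Y → Y)
    (f : C(X, Y)) : Prop :=
  ∀ x, f (α x) = β (f x)

/-- Two spaces with involutions `α`, `β` are `ℤ₂`-homotopy equivalent: there are equivariant maps
`f : X → Y` and `g : Y → X` such that `g ∘ f` and `f ∘ g` are equivariantly homotopic to the
identities (all the intermediate maps of the homotopies commute with the involutions). -/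
def Z2HomotopyEquivalent {X Y : Type} [TopologicalSpace X] [TopologicalSpace Y]
    (α : X → X) (β : Y → Y) : Prop :=
  ∃ (f : C(X, Y)) (g : C(Y, X)), Equivariant α β f ∧ Equivariant β α g ∧
    (g.comp f).HomotopicWith (ContinuousMap.id X) (Equivariant α α) ∧
    (f.comp g).HomotopicWith (ContinuousMap.id Y) (Equivariant β β)

section General

variable {X Y Z : Type} [TopologicalSpace X] [TopologicalSpace Y] [TopologicalSpace Z]
  {α : X → X} {β : Y → Y} {γ : Z → Z}

theorem Equivariant.comp {f : C(X, Y)} {g : C(Y, Z)} (hg : Equivariant β γ g)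
    (hf : Equivariant α β f) : Equivariant α γ (g.comp f) := fun x => by
  simp only [ContinuousMap.comp_apply, hf x, hg (f x)]

theorem homotopic_comp_left {f₀ f₁ : C(X, Y)} {g : C(Y, Z)} (hg : Equivariant β γ g)
    (h : f₀.HomotopicWith f₁ (Equivariant α β)) :
    (g.comp f₀).HomotopicWith (g.comp f₁) (Equivariant α γ) := by
  obtain ⟨F⟩ := h
  refine ⟨⟨⟨⟨fun p => g (F p), by fun_prop⟩, ?_, ?_⟩, ?_⟩⟩
  · intro x
    simp
  · intro x
    simp
  · intro t x
    have := F.prop t x
    simp only [ContinuousMap.Homotopy.curry_apply] at this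
    exact (congrArg g this).trans (hg _)

theorem homotopic_comp_right {f₀ f₁ : C(Y, Z)} {g : C(X, Y)} (hg : Equivariant α β g)
    (h : f₀.HomotopicWith f₁ (Equivariant β γ)) :
    (f₀.comp g).HomotopicWith (f₁.comp g) (Equivariant α γ) := by
  obtain ⟨F⟩ := h
  refine ⟨⟨⟨⟨fun p => F (p.1, g p.2), by fun_prop⟩, ?_, ?_⟩, ?_⟩⟩
  · intro x
    simp
  · intro x
    simp
  · intro t x
    have := F.prop t (g x)
    simp only [ContinuousMap.Homotopy.curry_apply] at this
    show F (t, g (α x)) = γ (F (t, g x))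
    rw [hg x]
    exact this

theorem Z2HomotopyEquivalent.symm (h : Z2HomotopyEquivalent α β) : Z2HomotopyEquivalent β α := by
  obtain ⟨f, g, hf, hg, h1, h2⟩ := h
  exact ⟨g, f, hg, hf, h2, h1⟩

theorem equivariant_id : Equivariant α α (ContinuousMap.id X) := fun _ => rfl

theorem Z2HomotopyEquivalent.refl (α : X → X) : Z2HomotopyEquivalent α α :=
  ⟨ContinuousMap.id X, ContinuousMap.id X, equivariant_id, equivariant_id,
    ContinuousMap.HomotopicWith.refl _ equivariant_id,
    ContinuousMap.HomotopicWith.refl _ equivariant_id⟩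

theorem Z2HomotopyEquivalent.trans (h : Z2HomotopyEquivalent α β)
    (h' : Z2HomotopyEquivalent β γ) : Z2HomotopyEquivalent α γ := by
  obtain ⟨f, g, hf, hg, h1, h2⟩ := h
  obtain ⟨f', g', hf', hg', h1', h2'⟩ := h'
  refine ⟨f'.comp f, g.comp g', hf'.comp hf, hg.comp hg', ?_, ?_⟩
  · have a := homotopic_comp_right hf (homotopic_comp_left hg h1')
    exact a.trans h1
  · have a := homotopic_comp_right hg' (homotopic_comp_left hf' h2)
    exact a.trans h2'

end General

variable {V : Type}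

/-- Pairs of vectors. -/
abbrev Pt (V : Type) : Type := (V → ℝ) × (V → ℝ)

/-- A continuous equivariant self-map of the ambient space which moves the points of `T` along
segments in `T`. -/
structure Push (T : Set (Pt V)) (Φ : Pt V → Pt V) : Prop where
  cont : Continuous Φ
  swap : ∀ p, Φ p.swap = (Φ p).swap
  seg : ∀ p ∈ T, ∀ s : ℝ, 0 ≤ s → s ≤ 1 → p + s • (Φ p - p) ∈ T

theorem Push.mem {T : Set (Pt V)} {Φ : Pt V → Pt V} (h : Push T Φ) {p : Pt V} (hp : p ∈ T) :
    Φ p ∈ T := by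
  have := h.seg p hp 1 zero_le_one le_rfl
  simpa using this

/-- The swap on a swap-invariant set. -/
def swapOn (S : Set (Pt V)) (hS : ∀ p ∈ S, p.swap ∈ S) (p : S) : S := ⟨p.1.swap, hS p.1 p.2⟩

/-- The restriction of a push. -/
def Push.restr {T : Set (Pt V)} {Φ : Pt V → Pt V} (h : Push T Φ) : C(T, T) :=
  ⟨fun p => ⟨Φ p.1, h.mem p.2⟩, by
    have := h.cont
    fun_prop⟩

theorem Push.equivariant {T : Set (Pt V)} {Φ : Pt V → Pt V} (h : Push T Φ)
    (hT : ∀ p ∈ T, p.swap ∈ T) : Equivariant (swapOn T hT) (swapOn T hT) h.restr := by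
  intro p
  apply Subtype.ext
  exact h.swap p.1

theorem Push.homotopic {T : Set (Pt V)} {Φ : Pt V → Pt V} (h : Push T Φ)
    (hT : ∀ p ∈ T, p.swap ∈ T) :
    h.restr.HomotopicWith (ContinuousMap.id T) (Equivariant (swapOn T hT) (swapOn T hT)) := by
  refine ⟨⟨⟨⟨fun q => ⟨q.2.1 + (1 - (q.1 : ℝ)) • (Φ q.2.1 - q.2.1),
    h.seg _ q.2.2 _ (by linarith [q.1.2.2]) (by linarith [q.1.2.1])⟩, ?_⟩, ?_, ?_⟩, ?_⟩⟩
  · have := h.cont
    fun_prop
  · intro p
    apply Subtype.ext
    simp [Push.restr]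
  · intro p
    apply Subtype.ext
    simp
  · intro t p
    apply Subtype.ext
    show (p.1.swap + (1 - (t : ℝ)) • (Φ p.1.swap - p.1.swap)) =
      (p.1 + (1 - (t : ℝ)) • (Φ p.1 - p.1)).swap
    rw [h.swap]
    rfl

theorem retract_equiv {S T : Set (Pt V)} (hST : S ⊆ T) (hS : ∀ p ∈ S, p.swap ∈ S)
    (hT : ∀ p ∈ T, p.swap ∈ T) (Φ Ψ : Pt V → Pt V) (hΦT : Push T Φ) (hΦS : Push S Φ)
    (hΨT : Push T Ψ) (hΨS : Push S Ψ) (hmap : ∀ p ∈ T, Ψ (Φ p) ∈ S) :
    Z2HomotopyEquivalent (swapOn T hT) (swapOn S hS) := by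
  have hc1 := hΦT.cont
  have hc2 := hΨT.cont
  let f : C(T, S) := ⟨fun p => ⟨Ψ (Φ p.1), hmap _ p.2⟩, by fun_prop⟩
  let g : C(S, T) := ⟨fun p => ⟨p.1, hST p.2⟩, by fun_prop⟩
  refine ⟨f, g, ?_, ?_, ?_, ?_⟩
  · intro p
    apply Subtype.ext
    show Ψ (Φ p.1.swap) = (Ψ (Φ p.1)).swap
    rw [hΦT.swap, hΨT.swap]
  · intro p
    rfl
  · have e : g.comp f = hΨT.restr.comp hΦT.restr := rfl
    rw [e]
    have a := homotopic_comp_left (hΨT.equivariant hT) (hΦT.homotopic hT)
    exact a.trans (hΨT.homotopic hT)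
  · have e : f.comp g = hΨS.restr.comp hΦS.restr := rfl
    rw [e]
    have a := homotopic_comp_left (hΨS.equivariant hS) (hΦS.homotopic hS)
    exact a.trans (hΨS.homotopic hS)

theorem Push.id (T : Set (Pt V)) : Push T (fun p => p) where
  cont := continuous_id
  swap := fun _ => rfl
  seg := fun p hp s _ _ => by simpa using hp

end Pool.Agent.W117.Box
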