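import Mathlib
import Pool.Agent.W117.Box1

set_option autoImplicit false
set_option linter.unusedSectionVars false
set_option linter.unusedVariables false

namespace Pool.Agent.W117.Box

open Finset

variable {V : Type} [Fintype V]

/-- The box complex of `G`, i.e. the polyhedral complex `Hom(K₂, G)` realised in `ℝ^V × ℝ^V`:
pairs of probability vectors such that every vertex in the support of the first one is adjacent
to every vertex in the support of the second one. -/
def boxComplex (G : SimpleGraph V) : Set ((V → ℝ) × (V → ℝ)) :=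
  {p | (∀ v, 0 ≤ p.1 v) ∧ ∑ v, p.1 v = 1 ∧ (∀ v, 0 ≤ p.2 v) ∧ ∑ v, p.2 v = 1 ∧
    ∀ u v, p.1 u ≠ 0 → p.2 v ≠ 0 → G.Adj u v}

theorem boxComplex_swap (G : SimpleGraph V) : ∀ p ∈ boxComplex G, p.swap ∈ boxComplex G := by
  rintro p ⟨h1, h2, h3, h4, h5⟩
  exact ⟨h3, h4, h1, h2, fun u v hu hv => (h5 v u hv hu).symm⟩

/-- The involution on the box complex. -/
def boxSwap (G : SimpleGraph V) : boxComplex G → boxComplex G :=
  swapOn (boxComplex G) (boxComplex_swap G)

/-- The auxiliary spaces. -/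
def W (G : SimpleGraph V) (u v : V) (RX RY : Set V) : Set (Pt V) :=
  {p | p ∈ boxComplex G ∧
    (p.1 u ≠ 0 → p.2 v ≠ 0 → (∀ a ∈ RX, p.1 a = 0) ∧ (∀ b ∈ RY, p.2 b = 0)) ∧
    (p.2 u ≠ 0 → p.1 v ≠ 0 → (∀ a ∈ RX, p.2 a = 0) ∧ (∀ b ∈ RY, p.1 b = 0))}

theorem W_swap (G : SimpleGraph V) (u v : V) (RX RY : Set V) :
    ∀ p ∈ W G u v RX RY, p.swap ∈ W G u v RX RY := by
  rintro p ⟨h1, h2, h3⟩
  exact ⟨boxComplex_swap G p h1, h3, h2⟩

theorem W_flip (G : SimpleGraph V) (u v : V) (RX RY : Set V) :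
    W G u v RX RY = W G v u RY RX := by
  ext p
  constructor
  · rintro ⟨h1, h2, h3⟩
    exact ⟨h1, fun a b => (h3 b a).symm, fun a b => (h2 b a).symm⟩
  · rintro ⟨h1, h2, h3⟩
    exact ⟨h1, fun a b => (h3 b a).symm, fun a b => (h2 b a).symm⟩

theorem W_empty (G : SimpleGraph V) (u v : V) : W G u v ∅ ∅ = boxComplex G := by
  ext p
  constructor
  · rintro ⟨h1, -, -⟩
    exact h1
  · intro h
    exact ⟨h, fun _ _ => ⟨fun a ha => absurd ha (by simp), fun a ha => absurd ha (by simp)⟩,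
      fun _ _ => ⟨fun a ha => absurd ha (by simp), fun a ha => absurd ha (by simp)⟩⟩

theorem W_mono {G : SimpleGraph V} {u v : V} {RX RY : Set V} {p q : Pt V}
    (hp : p ∈ W G u v RX RY) (h1 : ∀ v, 0 ≤ q.1 v) (h2 : ∑ v, q.1 v = 1) (h3 : ∀ v, 0 ≤ q.2 v)
    (h4 : ∑ v, q.2 v = 1) (h5 : ∀ w, q.1 w ≠ 0 → p.1 w ≠ 0) (h6 : ∀ w, q.2 w ≠ 0 → p.2 w ≠ 0) :
    q ∈ W G u v RX RY := by
  obtain ⟨⟨-, -, -, -, ha⟩, hb, hc⟩ := hp
  refine ⟨⟨h1, h2, h3, h4, fun i j hi hj => ha i j (h5 i hi) (h6 j hj)⟩, ?_, ?_⟩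
  · intro hu hv
    obtain ⟨a1, a2⟩ := hb (h5 _ hu) (h6 _ hv)
    exact ⟨fun a haR => by_contra fun hne => h5 _ hne (a1 a haR),
      fun a haR => by_contra fun hne => h6 _ hne (a2 a haR)⟩
  · intro hu hv
    obtain ⟨a1, a2⟩ := hc (h6 _ hu) (h5 _ hv)
    exact ⟨fun a haR => by_contra fun hne => h6 _ hne (a1 a haR),
      fun a haR => by_contra fun hne => h5 _ hne (a2 a haR)⟩

variable [DecidableEq V]

/-- Move the mass `t` from `a` to `b`. -/
def shift (a b : V) (t : ℝ) (x : V → ℝ) : V → ℝ := fun w =>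
  x w + t * ((if w = b then 1 else 0) - (if w = a then 1 else 0))

theorem shift_sum (a b : V) (t : ℝ) (x : V → ℝ) : ∑ w, shift a b t x w = ∑ w, x w := by
  simp only [shift]
  rw [Finset.sum_add_distrib, ← Finset.mul_sum, Finset.sum_sub_distrib]
  simp

theorem shift_zero (a b : V) (x : V → ℝ) : shift a b 0 x = x := by
  funext w
  simp [shift]

theorem shift_left {a b : V} (hab : a ≠ b) (t : ℝ) (x : V → ℝ) :
    shift a b t x a = x a - t := by
  simp [shift, hab]
  ring

theorem shift_right {a b : V} (hab : a ≠ b) (t : ℝ) (x : V → ℝ) :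
    shift a b t x b = x b + t := by
  simp [shift, hab.symm]

theorem shift_other {a b w : V} (ha : w ≠ a) (hb : w ≠ b) (t : ℝ) (x : V → ℝ) :
    shift a b t x w = x w := by
  simp [shift, ha, hb]

theorem shift_nonneg {a b : V} (hab : a ≠ b) {t : ℝ} {x : V → ℝ} (hx : ∀ w, 0 ≤ x w)
    (ht0 : 0 ≤ t) (ht : t ≤ x a) (w : V) : 0 ≤ shift a b t x w := by
  by_cases h1 : w = a
  · subst h1
    rw [shift_left hab]
    linarith
  · by_cases h2 : w = b
    · subst h2
      rw [shift_right hab]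
      linarith [hx w]
    · rw [shift_other h1 h2]
      exact hx w

theorem shift_supp {a b : V} {t : ℝ} {x : V → ℝ} (hx : ∀ w, 0 ≤ x w) (ht0 : 0 ≤ t)
    (ht : t ≤ x a) {w : V} (hw : shift a b t x w ≠ 0) : x w ≠ 0 ∨ (w = b ∧ t ≠ 0) := by
  by_cases ht' : t = 0
  · subst ht'
    rw [shift_zero] at hw
    exact Or.inl hw
  · by_cases h2 : w = b
    · exact Or.inr ⟨h2, ht'⟩
    · left
      by_cases h1 : w = a
      · subst h1
        intro h0
        rw [h0] at ht
        exact ht' (le_antisymm ht ht0)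
      · rw [shift_other h1 h2] at hw
        exact hw

/-- The first map of a link reduction. -/
def stepI (u v a b : V) (p : Pt V) : Pt V :=
  (shift a b (min 1 (4 * min (p.1 u) (p.2 v)) * p.1 a) p.1,
   shift a b (min 1 (4 * min (p.2 u) (p.1 v)) * p.2 a) p.2)

theorem shift_seg (a b : V) (t s : ℝ) (x : V → ℝ) :
    x + s • (shift a b t x - x) = shift a b (s * t) x := by
  funext w
  simp only [Pi.add_apply, Pi.smul_apply, Pi.sub_apply, shift, smul_eq_mul]
  ring

theorem stepI_seg (u v a b : V) (p : Pt V) (s : ℝ) :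
    p + s • (stepI u v a b p - p) =
      (shift a b (s * (min 1 (4 * min (p.1 u) (p.2 v)) * p.1 a)) p.1,
       shift a b (s * (min 1 (4 * min (p.2 u) (p.1 v)) * p.2 a)) p.2) := by
  apply Prod.ext
  · exact shift_seg _ _ _ _ _
  · exact shift_seg _ _ _ _ _

theorem stepI_push {G : SimpleGraph V} {u v a b : V} {RX RY : Set V}
    (hau : a ≠ u) (hav : a ≠ v) (hbu : b ≠ u) (hbv : b ≠ v) (hab : a ≠ b) (hbR : b ∉ RX)
    (hdom : ∀ w, w ∉ RY → G.Adj u w → G.Adj a w → G.Adj b w) :
    Push (W G u v RX RY) (stepI u v a b) where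
  cont := by
    unfold stepI shift
    fun_prop
  swap := fun p => rfl
  seg := by
    rintro p ⟨⟨h1, h2, h3, h4, h5⟩, h6, h7⟩ s hs0 hs1
    rw [stepI_seg]
    have key : ∀ (x : V → ℝ) (α β : ℝ), (∀ w, 0 ≤ x w) → 0 ≤ α → 0 ≤ β →
        0 ≤ s * (min 1 (4 * min α β) * x a) ∧ s * (min 1 (4 * min α β) * x a) ≤ x a ∧
        (s * (min 1 (4 * min α β) * x a) ≠ 0 → x a ≠ 0 ∧ α ≠ 0 ∧ β ≠ 0) := by
      intro x α β hx hα hβ
      have hm0 : 0 ≤ min α β := le_min hα hβ
      have hm : 0 ≤ min 1 (4 * min α β) := le_min zero_le_one (by linarith)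
      have hm1 : min 1 (4 * min α β) ≤ 1 := min_le_left _ _
      have hxa := hx a
      refine ⟨by positivity, ?_, ?_⟩
      · calc s * (min 1 (4 * min α β) * x a) ≤ 1 * (1 * x a) := by gcongr
          _ = x a := by ring
      · intro hne
        refine ⟨fun h => hne (by rw [h]; ring), fun h => hne ?_, fun h => hne ?_⟩
        · rw [h, min_eq_left hβ]
          simp
        · rw [h, min_eq_right hα]
          simp
    obtain ⟨k1, k2, k3⟩ := key p.1 (p.1 u) (p.2 v) h1 (h1 u) (h3 v)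
    obtain ⟨l1, l2, l3⟩ := key p.2 (p.2 u) (p.1 v) h3 (h3 u) (h1 v)
    generalize s * (min 1 (4 * min (p.1 u) (p.2 v)) * p.1 a) = t1 at k1 k2 k3
    generalize s * (min 1 (4 * min (p.2 u) (p.1 v)) * p.2 a) = t2 at l1 l2 l3
    have s1 : ∀ w, shift a b t1 p.1 w ≠ 0 →
        p.1 w ≠ 0 ∨ (w = b ∧ p.1 a ≠ 0 ∧ p.1 u ≠ 0 ∧ p.2 v ≠ 0) := by
      intro w hw
      rcases shift_supp h1 k1 k2 hw with h | ⟨h, h'⟩
      · exact Or.inl h
      · exact Or.inr ⟨h, k3 h'⟩
    have s2 : ∀ w, shift a b t2 p.2 w ≠ 0 →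
        p.2 w ≠ 0 ∨ (w = b ∧ p.2 a ≠ 0 ∧ p.2 u ≠ 0 ∧ p.1 v ≠ 0) := by
      intro w hw
      rcases shift_supp h3 l1 l2 hw with h | ⟨h, h'⟩
      · exact Or.inl h
      · exact Or.inr ⟨h, l3 h'⟩
    have noloop : p.1 u ≠ 0 → p.2 u ≠ 0 → False := fun x y => G.irrefl (h5 u u x y)
    refine ⟨⟨shift_nonneg hab h1 k1 k2, by rw [shift_sum]; exact h2,
      shift_nonneg hab h3 l1 l2, by rw [shift_sum]; exact h4, ?_⟩, ?_, ?_⟩
    · intro i j hi hj
      rcases s1 i hi with hi' | ⟨rfl, hia, hiu, hiv⟩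
      · rcases s2 j hj with hj' | ⟨rfl, hja, hju, hjv⟩
        · exact h5 i j hi' hj'
        · refine (hdom i ?_ (h5 i u hi' hju).symm (h5 i a hi' hja).symm).symm
          intro hiR
          exact hi' ((h7 hju hjv).2 i hiR)
      · rcases s2 j hj with hj' | ⟨rfl, hja, hju, hjv⟩
        · refine hdom j ?_ (h5 u j hiu hj') (h5 a j hia hj')
          intro hjR
          exact hj' ((h6 hiu hiv).2 j hjR)
        · exact (noloop hiu hju).elim
    · intro hu hv
      simp only [shift_other hau.symm hbu.symm, shift_other hav.symm hbv.symm] at hu hv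
      obtain ⟨c1, c2⟩ := h6 hu hv
      refine ⟨fun c hc => by_contra fun hne => ?_, fun c hc => by_contra fun hne => ?_⟩
      · rcases s1 c hne with h | ⟨rfl, _⟩
        · exact h (c1 c hc)
        · exact hbR hc
      · rcases s2 c hne with h | ⟨_, _, h, _⟩
        · exact h (c2 c hc)
        · exact noloop hu h
    · intro hu hv
      simp only [shift_other hau.symm hbu.symm, shift_other hav.symm hbv.symm] at hu hv
      obtain ⟨c1, c2⟩ := h7 hu hv
      refine ⟨fun c hc => by_contra fun hne => ?_, fun c hc => by_contra fun hne => ?_⟩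
      · rcases s2 c hne with h | ⟨rfl, _⟩
        · exact h (c1 c hc)
        · exact hbR hc
      · rcases s1 c hne with h | ⟨_, _, h, _⟩
        · exact h (c2 c hc)
        · exact noloop h hu

/-- Shrink the masses at `u` and `v`. -/
noncomputable def shr (u v : V) (x : V → ℝ) : V → ℝ := fun w =>
  (x w - ((if w = u then min (x u) (1 / 4) else 0) + (if w = v then min (x v) (1 / 4) else 0))) /
    (1 - (min (x u) (1 / 4) + min (x v) (1 / 4)))

theorem shr_den_pos (u v : V) (x : V → ℝ) :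
    0 < 1 - (min (x u) (1 / 4) + min (x v) (1 / 4)) := by
  have h1 : min (x u) (1 / 4) ≤ 1 / 4 := min_le_right _ _
  have h2 : min (x v) (1 / 4) ≤ 1 / 4 := min_le_right _ _
  linarith

theorem shr_num_nonneg {u v : V} (huv : u ≠ v) {x : V → ℝ} (hx : ∀ w, 0 ≤ x w) (w : V) :
    0 ≤ x w - ((if w = u then min (x u) (1 / 4) else 0) +
      (if w = v then min (x v) (1 / 4) else 0)) := by
  by_cases h1 : w = u
  · subst h1
    have : min (x w) (1 / 4) ≤ x w := min_le_left _ _
    simp [huv]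
  · by_cases h2 : w = v
    · subst h2
      have : min (x w) (1 / 4) ≤ x w := min_le_left _ _
      simp [h1]
    · simp [h1, h2, hx w]

theorem shr_nonneg {u v : V} (huv : u ≠ v) {x : V → ℝ} (hx : ∀ w, 0 ≤ x w) (w : V) :
    0 ≤ shr u v x w :=
  div_nonneg (shr_num_nonneg huv hx w) (shr_den_pos u v x).le

theorem shr_sum {u v : V} {x : V → ℝ} (hx : ∑ w, x w = 1) : ∑ w, shr u v x w = 1 := by
  simp only [shr]
  rw [← Finset.sum_div, Finset.sum_sub_distrib, Finset.sum_add_distrib, hx,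
    div_eq_one_iff_eq (shr_den_pos u v x).ne']
  simp

theorem shr_supp {u v : V} {x : V → ℝ} (hx : ∀ w, 0 ≤ x w) {w : V} (hw : x w = 0) :
    shr u v x w = 0 := by
  have h : x w - ((if w = u then min (x u) (1 / 4) else 0) +
      (if w = v then min (x v) (1 / 4) else 0)) = 0 := by
    by_cases h1 : w = u
    · subst h1
      by_cases h2 : w = v
      · subst h2
        simp [hw]
      · simp [hw, h2]
    · by_cases h2 : w = v
      · subst h2
        simp [h1, hw]
      · simp [h1, h2, hw]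
  simp only [shr]
  rw [h, zero_div]

theorem shr_left {u v : V} (huv : u ≠ v) {x : V → ℝ} (h : shr u v x u ≠ 0) : 1 / 4 < x u := by
  by_contra hle
  push Not at hle
  apply h
  simp only [shr]
  rw [min_eq_left hle]
  simp [huv]

theorem shr_right {u v : V} (huv : u ≠ v) {x : V → ℝ} (h : shr u v x v ≠ 0) : 1 / 4 < x v := by
  by_contra hle
  push Not at hle
  apply h
  simp only [shr]
  rw [min_eq_left hle]
  simp [huv.symm]

/-- The second map of a link reduction. -/
noncomputable def stepII (u v : V) (p : Pt V) : Pt V := (shr u v p.1, shr u v p.2)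

theorem stepII_push {G : SimpleGraph V} {u v : V} (huv : u ≠ v) (RX RY : Set V) :
    Push (W G u v RX RY) (stepII u v) where
  cont := by
    unfold stepII shr
    refine Continuous.prodMk ?_ ?_
    · refine continuous_pi fun w => ?_
      refine Continuous.div ?_ (by fun_prop) fun p => (shr_den_pos u v p.1).ne'
      split_ifs <;> fun_prop
    · refine continuous_pi fun w => ?_
      refine Continuous.div ?_ (by fun_prop) fun p => (shr_den_pos u v p.2).ne'
      split_ifs <;> fun_prop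
  swap := fun p => rfl
  seg := by
    intro p hp s hs0 hs1
    obtain ⟨⟨h1, h2, h3, h4, h5⟩, h6, h7⟩ := id hp
    have comb : ∀ x : V → ℝ, (∀ w, 0 ≤ x w) → ∑ w, x w = 1 →
        (∀ w, 0 ≤ (x + s • (shr u v x - x)) w) ∧ ∑ w, (x + s • (shr u v x - x)) w = 1 ∧
        (∀ w, (x + s • (shr u v x - x)) w ≠ 0 → x w ≠ 0) := by
      intro x hx hsum
      refine ⟨?_, ?_, ?_⟩
      · intro w
        have a1 := hx w
        have a2 := shr_nonneg huv hx w
        simp only [Pi.add_apply, Pi.smul_apply, Pi.sub_apply, smul_eq_mul]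
        nlinarith [mul_nonneg hs0 a2, mul_nonneg (sub_nonneg.2 hs1) a1]
      · simp only [Pi.add_apply, Pi.smul_apply, Pi.sub_apply, smul_eq_mul]
        rw [Finset.sum_add_distrib, ← Finset.mul_sum, Finset.sum_sub_distrib, hsum, shr_sum hsum]
        ring
      · intro w hw h0
        apply hw
        simp only [Pi.add_apply, Pi.smul_apply, Pi.sub_apply, smul_eq_mul]
        rw [shr_supp hx h0, h0]
        ring
    obtain ⟨a1, a2, a3⟩ := comb p.1 h1 h2
    obtain ⟨b1, b2, b3⟩ := comb p.2 h3 h4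
    exact W_mono hp a1 a2 b1 b2 a3 b3

theorem link_step (G : SimpleGraph V) {u v a b : V} {RX RY : Set V} (huv : u ≠ v)
    (hau : a ≠ u) (hav : a ≠ v) (hbu : b ≠ u) (hbv : b ≠ v) (hab : a ≠ b) (hbR : b ∉ RX)
    (hdom : ∀ w, w ∉ RY → G.Adj u w → G.Adj a w → G.Adj b w) :
    Z2HomotopyEquivalent (swapOn (W G u v RX RY) (W_swap G u v RX RY))
      (swapOn (W G u v (insert a RX) RY) (W_swap G u v (insert a RX) RY)) := by
  have hbR' : b ∉ insert a RX := by
    rintro (h | h)
    · exact hab h.symm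
    · exact hbR h
  refine retract_equiv ?_ _ _ (stepI u v a b) (stepII u v)
    (stepI_push hau hav hbu hbv hab hbR hdom) (stepI_push hau hav hbu hbv hab hbR' hdom)
    (stepII_push huv _ _) (stepII_push huv _ _) ?_
  · rintro p ⟨h1, h2, h3⟩
    refine ⟨h1, fun x y => ?_, fun x y => ?_⟩
    · obtain ⟨c1, c2⟩ := h2 x y
      exact ⟨fun c hc => c1 c (Set.mem_insert_of_mem _ hc), c2⟩
    · obtain ⟨c1, c2⟩ := h3 x y
      exact ⟨fun c hc => c1 c (Set.mem_insert_of_mem _ hc), c2⟩
  · intro p hp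
    have hq := (stepI_push hau hav hbu hbv hab hbR hdom).mem hp
    have hr := (stepII_push huv RX RY).mem hq
    obtain ⟨r1, r2, r3⟩ := hr
    have e1 : (stepI u v a b p).1 u = p.1 u := shift_other hau.symm hbu.symm _ _
    have e2 : (stepI u v a b p).2 u = p.2 u := shift_other hau.symm hbu.symm _ _
    have e3 : (stepI u v a b p).1 v = p.1 v := shift_other hav.symm hbv.symm _ _
    have e4 : (stepI u v a b p).2 v = p.2 v := shift_other hav.symm hbv.symm _ _
    refine ⟨r1, fun x y => ?_, fun x y => ?_⟩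
    · obtain ⟨c1, c2⟩ := r2 x y
      refine ⟨?_, c2⟩
      rintro c (rfl | hc)
      · have x' := shr_left huv x
        have y' := shr_right huv y
        rw [e1] at x'
        rw [e4] at y'
        apply shr_supp hq.1.1
        show shift c b (min 1 (4 * min (p.1 u) (p.2 v)) * p.1 c) p.1 c = 0
        have : min 1 (4 * min (p.1 u) (p.2 v)) = 1 := by
          apply min_eq_left
          have := lt_min x' y'
          linarith
        rw [this, shift_left hab]
        ring
      · exact c1 c hc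
    · obtain ⟨c1, c2⟩ := r3 x y
      refine ⟨?_, c2⟩
      rintro c (rfl | hc)
      · have x' := shr_left huv x
        have y' := shr_right huv y
        rw [e2] at x'
        rw [e3] at y'
        apply shr_supp hq.1.2.2.1
        show shift c b (min 1 (4 * min (p.2 u) (p.1 v)) * p.2 c) p.2 c = 0
        have : min 1 (4 * min (p.2 u) (p.1 v)) = 1 := by
          apply min_eq_left
          have := lt_min x' y'
          linarith
        rw [this, shift_left hab]
        ring
      · exact c1 c hc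

/-- The last map of an edge removal. -/
def stepIII (u v x0 y0 : V) (p : Pt V) : Pt V :=
  (shift v y0 (min (p.2 u) (p.1 v)) (shift u x0 (min (p.1 u) (p.2 v)) p.1),
   shift v y0 (min (p.1 u) (p.2 v)) (shift u x0 (min (p.2 u) (p.1 v)) p.2))

theorem stepIII_swap (u v x0 y0 : V) (p : Pt V) :
    stepIII u v x0 y0 p.swap = (stepIII u v x0 y0 p).swap := rfl

theorem stepIII_of {G : SimpleGraph V} {u v x0 y0 : V} {RX RY : Set V}
    (hX : ∀ w, G.Adj v w → w ∈ RX ∨ w = u ∨ w = x0) (hY : ∀ w, G.Adj u w → w ∈ RY ∨ w = v ∨ w = y0)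
    (hvx : G.Adj v x0) (huy : G.Adj u y0) (hxy : G.Adj x0 y0) (hxu : x0 ≠ u) (hyv : y0 ≠ v)
    {p : Pt V} (hp : p ∈ W G u v RX RY) (hu : p.1 u ≠ 0) (hv : p.2 v ≠ 0) :
    min (p.2 u) (p.1 v) = 0 ∧ (∀ w, p.1 w ≠ 0 → w = u ∨ w = x0) ∧
      (∀ w, p.2 w ≠ 0 → w = v ∨ w = y0) := by
  obtain ⟨⟨h1, h2, h3, h4, h5⟩, h6, h7⟩ := hp
  have hu2 : p.2 u = 0 := by
    by_contra h
    exact G.irrefl (h5 u u hu h)
  obtain ⟨c1, c2⟩ := h6 hu hv
  refine ⟨?_, ?_, ?_⟩
  · rw [hu2]
    exact min_eq_left (h1 v)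
  · intro w hw
    rcases hX w (h5 w v hw hv).symm with h | h | h
    · exact absurd (c1 w h) hw
    · exact Or.inl h
    · exact Or.inr h
  · intro w hw
    rcases hY w (h5 u w hu hw) with h | h | h
    · exact absurd (c2 w h) hw
    · exact Or.inl h
    · exact Or.inr h

theorem stepIII_val {u v x0 y0 : V} {p : Pt V} (hg : min (p.2 u) (p.1 v) = 0) (s : ℝ) :
    p + s • (stepIII u v x0 y0 p - p) =
      (shift u x0 (s * min (p.1 u) (p.2 v)) p.1, shift v y0 (s * min (p.1 u) (p.2 v)) p.2) := by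
  unfold stepIII
  rw [hg, shift_zero, shift_zero]
  apply Prod.ext
  · exact shift_seg _ _ _ _ _
  · exact shift_seg _ _ _ _ _

theorem stepIII_push {G : SimpleGraph V} {u v x0 y0 : V} {RX RY : Set V} (huv : G.Adj u v)
    (hX : ∀ w, G.Adj v w → w ∈ RX ∨ w = u ∨ w = x0) (hY : ∀ w, G.Adj u w → w ∈ RY ∨ w = v ∨ w = y0)
    (hvx : G.Adj v x0) (huy : G.Adj u y0) (hxy : G.Adj x0 y0) (hxu : x0 ≠ u) (hyv : y0 ≠ v)
    (huR : u ∉ RX) (hxR : x0 ∉ RX) (hvR : v ∉ RY) (hyR : y0 ∉ RY) :
    Push (W G u v RX RY) (stepIII u v x0 y0) where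
  cont := by
    unfold stepIII shift
    fun_prop
  swap := stepIII_swap u v x0 y0
  seg := by
    have main : ∀ p ∈ W G u v RX RY, p.1 u ≠ 0 → p.2 v ≠ 0 → ∀ s : ℝ, 0 ≤ s → s ≤ 1 →
        p + s • (stepIII u v x0 y0 p - p) ∈ W G u v RX RY := by
      intro p hp hu hv s hs0 hs1
      obtain ⟨g, k1, k2⟩ := stepIII_of hX hY hvx huy hxy hxu hyv hp hu hv
      obtain ⟨⟨h1, h2, h3, h4, h5⟩, h6, h7⟩ := hp
      rw [stepIII_val g]
      have hm0 : 0 ≤ min (p.1 u) (p.2 v) := le_min (h1 u) (h3 v)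
      have t0 : 0 ≤ s * min (p.1 u) (p.2 v) := mul_nonneg hs0 hm0
      have t1 : s * min (p.1 u) (p.2 v) ≤ p.1 u :=
        (mul_le_of_le_one_left hm0 hs1).trans (min_le_left _ _)
      have t2 : s * min (p.1 u) (p.2 v) ≤ p.2 v :=
        (mul_le_of_le_one_left hm0 hs1).trans (min_le_right _ _)
      have s1 : ∀ w, shift u x0 (s * min (p.1 u) (p.2 v)) p.1 w ≠ 0 → w = u ∨ w = x0 := by
        intro w hw
        rcases shift_supp h1 t0 t1 hw with h | ⟨h, _⟩
        · exact k1 w h
        · exact Or.inr h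
      have s2 : ∀ w, shift v y0 (s * min (p.1 u) (p.2 v)) p.2 w ≠ 0 → w = v ∨ w = y0 := by
        intro w hw
        rcases shift_supp h3 t0 t2 hw with h | ⟨h, _⟩
        · exact k2 w h
        · exact Or.inr h
      refine ⟨⟨shift_nonneg hxu.symm h1 t0 t1, by rw [shift_sum]; exact h2,
        shift_nonneg hyv.symm h3 t0 t2, by rw [shift_sum]; exact h4, ?_⟩, ?_, ?_⟩
      · intro i j hi hj
        rcases s1 i hi with rfl | rfl <;> rcases s2 j hj with rfl | rfl
        · exact huv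
        · exact huy
        · exact hvx.symm
        · exact hxy
      · intro _ _
        refine ⟨fun a ha => by_contra fun hne => ?_, fun a ha => by_contra fun hne => ?_⟩
        · rcases s1 a hne with rfl | rfl
          · exact huR ha
          · exact hxR ha
        · rcases s2 a hne with rfl | rfl
          · exact hvR ha
          · exact hyR ha
      · intro hh _
        exfalso
        rcases s2 u hh with h | h
        · exact G.ne_of_adj huv h
        · exact G.ne_of_adj huy h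
    intro p hp s hs0 hs1
    by_cases h1 : p.1 u ≠ 0 ∧ p.2 v ≠ 0
    · exact main p hp h1.1 h1.2 s hs0 hs1
    by_cases h2 : p.2 u ≠ 0 ∧ p.1 v ≠ 0
    · have := main p.swap (W_swap G u v RX RY p hp) h2.1 h2.2 s hs0 hs1
      have := W_swap G u v RX RY _ this
      rw [stepIII_swap] at this
      exact this
    have e1 : min (p.1 u) (p.2 v) = 0 := by
      obtain ⟨⟨a1, a2, a3, a4, a5⟩, _⟩ := hp
      by_cases h : p.1 u = 0
      · rw [h]
        exact min_eq_left (a3 v)
      · have : p.2 v = 0 := by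
          by_contra h'
          exact h1 ⟨h, h'⟩
        rw [this]
        exact min_eq_right (a1 u)
    have e2 : min (p.2 u) (p.1 v) = 0 := by
      obtain ⟨⟨a1, a2, a3, a4, a5⟩, _⟩ := hp
      by_cases h : p.2 u = 0
      · rw [h]
        exact min_eq_left (a1 v)
      · have : p.1 v = 0 := by
          by_contra h'
          exact h2 ⟨h, h'⟩
        rw [this]
        exact min_eq_right (a3 u)
    rw [stepIII_val e2, e1, mul_zero, shift_zero, shift_zero]
    exact hp

theorem edge_final (G G' : SimpleGraph V) {u v x0 y0 : V} {RX RY : Set V} (huv : G.Adj u v)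
    (hG' : ∀ i j, G'.Adj i j ↔ G.Adj i j ∧ ¬ (i = u ∧ j = v) ∧ ¬ (i = v ∧ j = u))
    (hX : ∀ w, G.Adj v w → w ∈ RX ∨ w = u ∨ w = x0) (hY : ∀ w, G.Adj u w → w ∈ RY ∨ w = v ∨ w = y0)
    (hvx : G.Adj v x0) (huy : G.Adj u y0) (hxy : G.Adj x0 y0) (hxu : x0 ≠ u) (hyv : y0 ≠ v)
    (huR : u ∉ RX) (hxR : x0 ∉ RX) (hvR : v ∉ RY) (hyR : y0 ∉ RY) :
    Z2HomotopyEquivalent (swapOn (W G u v RX RY) (W_swap G u v RX RY)) (boxSwap G') := by
  have huv' : u ≠ v := G.ne_of_adj huv
  -- points of the smaller complex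
  have small : ∀ p ∈ boxComplex G', (p.1 u = 0 ∨ p.2 v = 0) ∧ (p.2 u = 0 ∨ p.1 v = 0) := by
    rintro p ⟨h1, h2, h3, h4, h5⟩
    constructor
    · by_contra h
      push Not at h
      exact ((hG' u v).1 (h5 u v h.1 h.2)).2.1 ⟨rfl, rfl⟩
    · by_contra h
      push Not at h
      exact ((hG' v u).1 (h5 v u h.2 h.1)).2.2 ⟨rfl, rfl⟩
  have fixS : ∀ p ∈ boxComplex G', stepIII u v x0 y0 p = p := by
    intro p hp
    obtain ⟨s1, s2⟩ := small p hp
    obtain ⟨h1, h2, h3, h4, h5⟩ := hp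
    have e1 : min (p.1 u) (p.2 v) = 0 := by
      rcases s1 with h | h
      · rw [h]
        exact min_eq_left (h3 v)
      · rw [h]
        exact min_eq_right (h1 u)
    have e2 : min (p.2 u) (p.1 v) = 0 := by
      rcases s2 with h | h
      · rw [h]
        exact min_eq_left (h1 v)
      · rw [h]
        exact min_eq_right (h3 u)
    unfold stepIII
    rw [e1, e2]
    simp only [shift_zero]
  have hP := stepIII_push huv hX hY hvx huy hxy hxu hyv huR hxR hvR hyR
  have hPS : Push (boxComplex G') (stepIII u v x0 y0) := by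
    refine ⟨hP.cont, hP.swap, ?_⟩
    intro p hp s _ _
    rw [fixS p hp]
    simpa using hp
  refine retract_equiv ?_ _ _ (stepIII u v x0 y0) (fun p => p) hP hPS (Push.id _) (Push.id _) ?_
  · intro p hp
    obtain ⟨s1, s2⟩ := small p hp
    obtain ⟨h1, h2, h3, h4, h5⟩ := hp
    refine ⟨⟨h1, h2, h3, h4, fun i j hi hj => ((hG' i j).1 (h5 i j hi hj)).1⟩, ?_, ?_⟩
    · intro hu hv
      rcases s1 with h | h
      · exact absurd h hu
      · exact absurd h hv
    · intro hu hv
      rcases s2 with h | h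
      · exact absurd h hu
      · exact absurd h hv
  · have main : ∀ p ∈ W G u v RX RY, p.1 u ≠ 0 → p.2 v ≠ 0 →
        stepIII u v x0 y0 p ∈ boxComplex G' := by
      intro p hp hu hv
      obtain ⟨g, k1, k2⟩ := stepIII_of hX hY hvx huy hxy hxu hyv hp hu hv
      have hq := hP.mem hp
      obtain ⟨⟨q1, q2, q3, q4, q5⟩, _⟩ := hq
      obtain ⟨⟨h1, h2, h3, h4, h5⟩, h6, h7⟩ := hp
      have hval := stepIII_val (x0 := x0) (y0 := y0) g 1
      rw [one_smul, add_sub_cancel, one_mul] at hval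
      have hm0 : 0 ≤ min (p.1 u) (p.2 v) := le_min (h1 u) (h3 v)
      refine ⟨q1, q2, q3, q4, ?_⟩
      intro i j hi hj
      refine (hG' i j).2 ⟨q5 i j hi hj, ?_, ?_⟩
      · rintro ⟨rfl, rfl⟩
        rw [hval] at hi hj
        simp only [shift_left hxu.symm, shift_left hyv.symm] at hi hj
        rcases min_choice (p.1 i) (p.2 j) with h | h
        · rw [h] at hi
          exact hi (sub_self _)
        · rw [h] at hj
          exact hj (sub_self _)
      · rintro ⟨rfl, rfl⟩
        rw [hval] at hi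
        rcases shift_supp h1 hm0 (min_le_left _ _) hi with h | ⟨h, _⟩
        · rcases k1 i h with h' | h'
          · exact huv' h'.symm
          · exact G.ne_of_adj hvx h'
        · exact G.ne_of_adj hvx h
    intro p hp
    by_cases h1 : p.1 u ≠ 0 ∧ p.2 v ≠ 0
    · exact main p hp h1.1 h1.2
    by_cases h2 : p.2 u ≠ 0 ∧ p.1 v ≠ 0
    · have := main p.swap (W_swap G u v RX RY p hp) h2.1 h2.2
      have := boxComplex_swap G' _ this
      rw [stepIII_swap] at this
      exact this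
    have hp' : p ∈ boxComplex G' := by
      obtain ⟨⟨a1, a2, a3, a4, a5⟩, _⟩ := hp
      refine ⟨a1, a2, a3, a4, fun i j hi hj => (hG' i j).2 ⟨a5 i j hi hj, ?_, ?_⟩⟩
      · rintro ⟨rfl, rfl⟩
        exact h1 ⟨hi, hj⟩
      · rintro ⟨rfl, rfl⟩
        exact h2 ⟨hj, hi⟩
    rw [fixS p hp']
    exact hp'

/-- Folding the vertex `u` onto `w`. -/
def foldMap (u w : V) (p : Pt V) : Pt V := (shift u w (p.1 u) p.1, shift u w (p.2 u) p.2)

theorem fold_equiv (G G' : SimpleGraph V) {u w : V} (huw : u ≠ w)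
    (hG' : ∀ i j, G'.Adj i j ↔ G.Adj i j ∧ i ≠ u ∧ j ≠ u) (hN : ∀ j, G.Adj u j → G.Adj w j) :
    Z2HomotopyEquivalent (boxSwap G) (boxSwap G') := by
  have small : ∀ p ∈ boxComplex G', p.1 u = 0 ∧ p.2 u = 0 := by
    rintro p ⟨h1, h2, h3, h4, h5⟩
    constructor
    · by_contra h
      have : ∃ j, p.2 j ≠ 0 := by
        by_contra hne
        push Not at hne
        simp [hne] at h4
      obtain ⟨j, hj⟩ := this
      exact ((hG' u j).1 (h5 u j h hj)).2.1 rfl
    · by_contra h
      have : ∃ j, p.1 j ≠ 0 := by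
        by_contra hne
        push Not at hne
        simp [hne] at h2
      obtain ⟨j, hj⟩ := this
      exact ((hG' j u).1 (h5 j u hj h)).2.2 rfl
  have fixS : ∀ p ∈ boxComplex G', foldMap u w p = p := by
    intro p hp
    obtain ⟨s1, s2⟩ := small p hp
    unfold foldMap
    rw [s1, s2]
    simp only [shift_zero]
  have seg : ∀ p : Pt V, ∀ s : ℝ, p + s • (foldMap u w p - p) =
      (shift u w (s * p.1 u) p.1, shift u w (s * p.2 u) p.2) := by
    intro p s
    apply Prod.ext
    · exact shift_seg _ _ _ _ _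
    · exact shift_seg _ _ _ _ _
  have hP : Push (boxComplex G) (foldMap u w) := by
    refine ⟨?_, fun p => rfl, ?_⟩
    · unfold foldMap shift
      fun_prop
    · rintro p ⟨h1, h2, h3, h4, h5⟩ s hs0 hs1
      rw [seg]
      have t1 : 0 ≤ s * p.1 u := mul_nonneg hs0 (h1 u)
      have t2 : s * p.1 u ≤ p.1 u := mul_le_of_le_one_left (h1 u) hs1
      have t3 : 0 ≤ s * p.2 u := mul_nonneg hs0 (h3 u)
      have t4 : s * p.2 u ≤ p.2 u := mul_le_of_le_one_left (h3 u) hs1
      refine ⟨shift_nonneg huw h1 t1 t2, by rw [shift_sum]; exact h2,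
        shift_nonneg huw h3 t3 t4, by rw [shift_sum]; exact h4, ?_⟩
      intro i j hi hj
      rcases shift_supp h1 t1 t2 hi with hi' | ⟨rfl, hi'⟩
      · rcases shift_supp h3 t3 t4 hj with hj' | ⟨rfl, hj'⟩
        · exact h5 i j hi' hj'
        · exact (hN i (h5 i u hi' (right_ne_zero_of_mul hj')).symm).symm
      · rcases shift_supp h3 t3 t4 hj with hj' | ⟨rfl, hj'⟩
        · exact hN j (h5 u j (right_ne_zero_of_mul hi') hj')
        · exact (G.irrefl (h5 u u (right_ne_zero_of_mul hi') (right_ne_zero_of_mul hj'))).elim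
  have hPS : Push (boxComplex G') (foldMap u w) := by
    refine ⟨hP.cont, hP.swap, ?_⟩
    intro p hp s _ _
    rw [fixS p hp]
    simpa using hp
  refine retract_equiv ?_ _ _ (foldMap u w) (fun p => p) hP hPS (Push.id _) (Push.id _) ?_
  · rintro p ⟨h1, h2, h3, h4, h5⟩
    exact ⟨h1, h2, h3, h4, fun i j hi hj => ((hG' i j).1 (h5 i j hi hj)).1⟩
  · intro p hp
    have hq := hP.mem hp
    obtain ⟨q1, q2, q3, q4, q5⟩ := hq
    refine ⟨q1, q2, q3, q4, fun i j hi hj => (hG' i j).2 ⟨q5 i j hi hj, ?_, ?_⟩⟩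
    · rintro rfl
      apply hi
      show shift i w (p.1 i) p.1 i = 0
      rw [shift_left huw, sub_self]
    · rintro rfl
      apply hj
      show shift j w (p.2 j) p.2 j = 0
      rw [shift_left huw, sub_self]

end Pool.Agent.W117.Box
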