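import Mathlib
import Pool.Agent.W117.Box2

set_option autoImplicit false

namespace Pool.Agent.W117.Box

/-- Adjacency given by a list of bit masks. -/
def nb (L : List ℕ) (i j : ℕ) : Bool :=
  (L.getD i 0).testBit j && (L.getD j 0).testBit i && (i != j)

theorem nb_symm (L : List ℕ) (i j : ℕ) : nb L i j = nb L j i := by
  unfold nb
  rw [Bool.and_comm ((L.getD i 0).testBit j), bne_comm]

theorem nb_irrefl (L : List ℕ) (i : ℕ) : nb L i i = false := by
  simp [nb]

/-- The graph on `Fin n` given by a list of bit masks. -/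
def gr (n : ℕ) (L : List ℕ) : SimpleGraph (Fin n) where
  Adj i j := nb L i j = true
  symm := ⟨fun i j h => by rw [nb_symm]; exact h⟩
  loopless := ⟨fun i h => by rw [nb_irrefl] at h; exact absurd h (by decide)⟩

theorem gr_adj {n : ℕ} {L : List ℕ} {i j : Fin n} : (gr n L).Adj i j ↔ nb L i j = true := Iff.rfl

/-- Clear the bit `k` of `m`. -/
def clearBit (m k : ℕ) : ℕ := m ^^^ (m &&& (1 <<< k))

theorem testBit_clearBit (m k i : ℕ) :
    (clearBit m k).testBit i = (m.testBit i && (i != k)) := by
  unfold clearBit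
  rw [Nat.testBit_xor, Nat.testBit_and, Nat.one_shiftLeft, Nat.testBit_two_pow]
  by_cases h : k = i
  · subst h
    simp
  · have h' : ¬ (i = k) := fun e => h e.symm
    simp [h, h']

theorem testBit_insert (m k i : ℕ) :
    (m ||| (1 <<< k)).testBit i = (m.testBit i || (i == k)) := by
  rw [Nat.testBit_or, Nat.one_shiftLeft, Nat.testBit_two_pow]
  by_cases h : k = i
  · subst h
    simp
  · have h' : ¬ (i = k) := fun e => h e.symm
    simp [h, h']

theorem getD_set (L : List ℕ) (u i x : ℕ) :
    (L.set u x).getD i 0 = if i = u ∧ u < L.length then x else L.getD i 0 := by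
  rw [List.getD_eq_getElem?_getD, List.getD_eq_getElem?_getD, List.getElem?_set]
  by_cases h1 : u = i
  · subst h1
    by_cases h2 : u < L.length
    · simp [h2]
    · simp [h2]
  · have h1' : ¬ (i = u) := fun e => h1 e.symm
    simp [h1, h1']

/-- Delete the edge `u v`. -/
def delE (L : List ℕ) (u v : ℕ) : List ℕ := L.set u (clearBit (L.getD u 0) v)

/-- Delete the vertex `u`. -/
def delV (L : List ℕ) (u : ℕ) : List ℕ := L.set u 0

theorem nb_delE {L : List ℕ} {u v : ℕ} (hu : u < L.length) (huv : u ≠ v) (i j : ℕ) :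
    nb (delE L u v) i j = true ↔ nb L i j = true ∧ ¬ (i = u ∧ j = v) ∧ ¬ (i = v ∧ j = u) := by
  unfold nb delE
  rw [getD_set, getD_set]
  by_cases h1 : i = u
  · subst h1
    by_cases h2 : j = i
    · subst h2
      simp
    · simp only [hu, and_self, if_true, h2, false_and, if_false, testBit_clearBit]
      simp only [Bool.and_eq_true, bne_iff_ne, ne_eq]
      constructor
      · rintro ⟨⟨⟨a, b⟩, c⟩, d⟩
        exact ⟨⟨⟨a, c⟩, d⟩, fun h => b h.2, fun h => h.2.elim⟩
      · rintro ⟨⟨⟨a, c⟩, d⟩, e, _⟩
        exact ⟨⟨⟨a, fun h => e ⟨trivial, h⟩⟩, c⟩, d⟩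
  · by_cases h2 : j = u
    · subst h2
      simp only [hu, and_self, if_true, h1, false_and, if_false, testBit_clearBit]
      simp only [Bool.and_eq_true, bne_iff_ne, ne_eq]
      constructor
      · rintro ⟨⟨a, b, c⟩, d⟩
        exact ⟨⟨⟨a, b⟩, d⟩, fun h => h, fun h => c h.1⟩
      · rintro ⟨⟨⟨a, b⟩, d⟩, _, e⟩
        exact ⟨⟨a, b, fun h => e ⟨h, trivial⟩⟩, d⟩
    · simp [h1, h2]

theorem nb_delV {L : List ℕ} {u : ℕ} (hu : u < L.length) (i j : ℕ) :
    nb (delV L u) i j = true ↔ nb L i j = true ∧ i ≠ u ∧ j ≠ u := by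
  unfold nb delV
  rw [getD_set, getD_set]
  by_cases h1 : i = u
  · subst h1
    simp [hu]
  · by_cases h2 : j = u
    · subst h2
      simp [hu, h1]
    · simp [h1, h2]

/-- Check of a link reduction followed by the removal of the edge `u v`. -/
def chk (n : ℕ) (L : List ℕ) (u v x0 y0 : ℕ) : List (Bool × ℕ × ℕ) → ℕ → ℕ → Bool
  | [], rx, ry =>
    (List.range n).all (fun w => !(nb L v w) || rx.testBit w || w == u || w == x0) &&
    (List.range n).all (fun w => !(nb L u w) || ry.testBit w || w == v || w == y0) &&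
    nb L v x0 && nb L u y0 && nb L x0 y0 && (x0 != u) && (y0 != v) && !(rx.testBit u) &&
    !(rx.testBit x0) && !(ry.testBit v) && !(ry.testBit y0)
  | (false, a, b) :: t, rx, ry =>
    (a != u) && (a != v) && (b != u) && (b != v) && (a != b) && decide (a < n) &&
    decide (b < n) && !(rx.testBit b) &&
    (List.range n).all (fun w => ry.testBit w || !(nb L u w) || !(nb L a w) || nb L b w) &&
    chk n L u v x0 y0 t (rx ||| (1 <<< a)) ry
  | (true, a, b) :: t, rx, ry =>
    (a != u) && (a != v) && (b != u) && (b != v) && (a != b) && decide (a < n) &&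
    decide (b < n) && !(ry.testBit b) &&
    (List.range n).all (fun w => rx.testBit w || !(nb L v w) || !(nb L a w) || nb L b w) &&
    chk n L u v x0 y0 t rx (ry ||| (1 <<< a))

/-- The set of a bit mask. -/
def bs (n : ℕ) (m : ℕ) : Set (Fin n) := {w | m.testBit w = true}

theorem bs_insert {n : ℕ} (m : ℕ) (a : Fin n) : bs n (m ||| (1 <<< (a : ℕ))) = insert a (bs n m) := by
  ext w
  simp only [bs, Set.mem_ofPred_eq, Set.mem_insert_iff, testBit_insert, Bool.or_eq_true, beq_iff_eq]
  rw [Fin.ext_iff]
  tauto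

theorem bs_zero (n : ℕ) : bs n 0 = ∅ := by
  ext w
  simp [bs]

theorem swapOn_congr {V : Type} {S T : Set (Pt V)} (h : S = T) (hS : ∀ p ∈ S, p.swap ∈ S)
    (hT : ∀ p ∈ T, p.swap ∈ T) : Z2HomotopyEquivalent (swapOn S hS) (swapOn T hT) := by
  subst h
  exact Z2HomotopyEquivalent.refl _

theorem chk_sound {n : ℕ} {L : List ℕ} {u v x0 y0 : Fin n} (hL : n ≤ L.length)
    (huv : nb L u v = true) (l : List (Bool × ℕ × ℕ)) : ∀ rx ry : ℕ,
    chk n L u v x0 y0 l rx ry = true →
    Z2HomotopyEquivalent
      (swapOn (W (gr n L) u v (bs n rx) (bs n ry)) (W_swap (gr n L) u v (bs n rx) (bs n ry)))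
      (boxSwap (gr n (delE L u v))) := by
  have huv' : u ≠ v := by
    rintro rfl
    rw [nb_irrefl] at huv
    exact absurd huv (by decide)
  have huvn : (u : ℕ) ≠ v := fun h => huv' (Fin.ext h)
  induction l with
  | nil =>
    intro rx ry h
    simp only [chk, Bool.and_eq_true, List.all_eq_true, List.mem_range, Bool.or_eq_true,
      Bool.not_eq_true', beq_iff_eq, bne_iff_ne, ne_eq] at h
    obtain ⟨⟨⟨⟨⟨⟨⟨⟨⟨⟨h1, h2⟩, h3⟩, h4⟩, h5⟩, h6⟩, h7⟩, h8⟩, h9⟩, h10⟩, h11⟩ := h
    refine edge_final (gr n L) (gr n (delE L u v)) (x0 := x0) (y0 := y0) huv ?_ ?_ ?_ h3 h4 h5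
      (fun h => h6 (congrArg Fin.val h)) (fun h => h7 (congrArg Fin.val h)) ?_ ?_ ?_ ?_
    · intro i j
      rw [gr_adj, gr_adj, nb_delE (lt_of_lt_of_le u.2 hL) huvn]
      simp only [Fin.ext_iff]
    · intro w hw
      rw [gr_adj] at hw
      rcases h1 w w.2 with ((h | h) | h) | h
      · rw [hw] at h
        exact absurd h (by decide)
      · exact Or.inl h
      · exact Or.inr (Or.inl (Fin.ext h))
      · exact Or.inr (Or.inr (Fin.ext h))
    · intro w hw
      rw [gr_adj] at hw
      rcases h2 w w.2 with ((h | h) | h) | h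
      · rw [hw] at h
        exact absurd h (by decide)
      · exact Or.inl h
      · exact Or.inr (Or.inl (Fin.ext h))
      · exact Or.inr (Or.inr (Fin.ext h))
    · intro h
      have : rx.testBit u = true := h
      rw [h8] at this
      exact absurd this (by decide)
    · intro h
      have : rx.testBit x0 = true := h
      rw [h9] at this
      exact absurd this (by decide)
    · intro h
      have : ry.testBit v = true := h
      rw [h10] at this
      exact absurd this (by decide)
    · intro h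
      have : ry.testBit y0 = true := h
      rw [h11] at this
      exact absurd this (by decide)
  | cons s t ih =>
    intro rx ry h
    obtain ⟨side, a, b⟩ := s
    cases side with
    | false =>
      simp only [chk, Bool.and_eq_true, List.all_eq_true, List.mem_range, Bool.or_eq_true,
        Bool.not_eq_true', bne_iff_ne, ne_eq, decide_eq_true_eq] at h
      obtain ⟨⟨⟨⟨⟨⟨⟨⟨⟨h1, h2⟩, h3⟩, h4⟩, h5⟩, h6⟩, h7⟩, h8⟩, h9⟩, h10⟩ := h
      obtain ⟨a, rfl⟩ : ∃ a' : Fin n, (a' : ℕ) = a := ⟨⟨a, h6⟩, rfl⟩
      obtain ⟨b, rfl⟩ : ∃ b' : Fin n, (b' : ℕ) = b := ⟨⟨b, h7⟩, rfl⟩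
      have e1 := ih _ _ h10
      have e2 := link_step (gr n L) (u := u) (v := v) (a := a) (b := b) (RX := bs n rx)
        (RY := bs n ry) huv' (fun h => h1 (congrArg Fin.val h)) (fun h => h2 (congrArg Fin.val h))
        (fun h => h3 (congrArg Fin.val h)) (fun h => h4 (congrArg Fin.val h))
        (fun h => h5 (congrArg Fin.val h)) (by
          intro h
          have : rx.testBit b = true := h
          rw [h8] at this
          exact absurd this (by decide)) (by
          intro w hw hu ha
          rw [gr_adj] at hu ha ⊢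
          rcases h9 w w.2 with ((h | h) | h) | h
          · exact absurd h hw
          · rw [hu] at h
            exact absurd h (by decide)
          · rw [ha] at h
            exact absurd h (by decide)
          · exact h)
      refine e2.trans ((swapOn_congr ?_ _ _).trans e1)
      rw [bs_insert]
    | true =>
      simp only [chk, Bool.and_eq_true, List.all_eq_true, List.mem_range, Bool.or_eq_true,
        Bool.not_eq_true', bne_iff_ne, ne_eq, decide_eq_true_eq] at h
      obtain ⟨⟨⟨⟨⟨⟨⟨⟨⟨h1, h2⟩, h3⟩, h4⟩, h5⟩, h6⟩, h7⟩, h8⟩, h9⟩, h10⟩ := h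
      obtain ⟨a, rfl⟩ : ∃ a' : Fin n, (a' : ℕ) = a := ⟨⟨a, h6⟩, rfl⟩
      obtain ⟨b, rfl⟩ : ∃ b' : Fin n, (b' : ℕ) = b := ⟨⟨b, h7⟩, rfl⟩
      have e1 := ih _ _ h10
      have e2 := link_step (gr n L) (u := v) (v := u) (a := a) (b := b) (RX := bs n ry)
        (RY := bs n rx) huv'.symm (fun h => h2 (congrArg Fin.val h))
        (fun h => h1 (congrArg Fin.val h))
        (fun h => h4 (congrArg Fin.val h)) (fun h => h3 (congrArg Fin.val h))
        (fun h => h5 (congrArg Fin.val h)) (by
          intro h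
          have : ry.testBit b = true := h
          rw [h8] at this
          exact absurd this (by decide)) (by
          intro w hw hu ha
          rw [gr_adj] at hu ha ⊢
          rcases h9 w w.2 with ((h | h) | h) | h
          · exact absurd h hw
          · rw [hu] at h
            exact absurd h (by decide)
          · rw [ha] at h
            exact absurd h (by decide)
          · exact h)
      refine (swapOn_congr (W_flip _ _ _ _ _) _ _).trans
        (e2.trans ((swapOn_congr ?_ _ _).trans e1))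
      rw [W_flip, bs_insert]

/-- The moves: fold the vertex `u` onto `w`; remove the edge `u v`. -/
inductive Mv : Type
  | fold (u w : ℕ)
  | edge (u v x0 y0 : ℕ) (l : List (Bool × ℕ × ℕ))

/-- Apply a list of moves, checking them. -/
def run (n : ℕ) : List ℕ → List Mv → Option (List ℕ)
  | L, [] => some L
  | L, Mv.fold u w :: t =>
    if decide (u < n) && decide (w < n) && (u != w) &&
        (List.range n).all (fun j => !(nb L u j) || nb L w j) then
      run n (delV L u) t else none
  | L, Mv.edge u v x0 y0 l :: t =>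
    if decide (u < n) && decide (v < n) && decide (x0 < n) && decide (y0 < n) && nb L u v &&
        chk n L u v x0 y0 l 0 0 then
      run n (delE L u v) t else none

theorem run_sound {n : ℕ} (ms : List Mv) : ∀ (L L' : List ℕ), n ≤ L.length →
    run n L ms = some L' → Z2HomotopyEquivalent (boxSwap (gr n L)) (boxSwap (gr n L')) := by
  induction ms with
  | nil =>
    intro L L' _ h
    simp only [run, Option.some.injEq] at h
    subst h
    exact Z2HomotopyEquivalent.refl _
  | cons m t ih =>
    intro L L' hL h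
    cases m with
    | fold u w =>
      simp only [run] at h
      split_ifs at h with hc
      simp only [Bool.and_eq_true, List.all_eq_true, List.mem_range, Bool.or_eq_true,
        Bool.not_eq_true', bne_iff_ne, ne_eq, decide_eq_true_eq] at hc
      obtain ⟨⟨⟨h1, h2⟩, h3⟩, h4⟩ := hc
      obtain ⟨u, rfl⟩ : ∃ a' : Fin n, (a' : ℕ) = u := ⟨⟨u, h1⟩, rfl⟩
      obtain ⟨w, rfl⟩ : ∃ b' : Fin n, (b' : ℕ) = w := ⟨⟨w, h2⟩, rfl⟩
      have e1 := ih _ _ (by rw [delV, List.length_set]; exact hL) h
      refine (fold_equiv (gr n L) (gr n (delV L u)) (u := u) (w := w)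
        (fun h => h3 (congrArg Fin.val h)) ?_ ?_).trans e1
      · intro i j
        rw [gr_adj, gr_adj, nb_delV (lt_of_lt_of_le u.2 hL)]
        simp only [ne_eq, Fin.ext_iff]
      · intro j hj
        rw [gr_adj] at hj ⊢
        rcases h4 j j.2 with h | h
        · rw [hj] at h
          exact absurd h (by decide)
        · exact h
    | edge u v x0 y0 l =>
      simp only [run] at h
      split_ifs at h with hc
      simp only [Bool.and_eq_true, decide_eq_true_eq] at hc
      obtain ⟨⟨⟨⟨⟨h1, h2⟩, h3⟩, h4⟩, h5⟩, h6⟩ := hc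
      obtain ⟨u, rfl⟩ : ∃ a' : Fin n, (a' : ℕ) = u := ⟨⟨u, h1⟩, rfl⟩
      obtain ⟨v, rfl⟩ : ∃ b' : Fin n, (b' : ℕ) = v := ⟨⟨v, h2⟩, rfl⟩
      obtain ⟨x0, rfl⟩ : ∃ a' : Fin n, (a' : ℕ) = x0 := ⟨⟨x0, h3⟩, rfl⟩
      obtain ⟨y0, rfl⟩ : ∃ b' : Fin n, (b' : ℕ) = y0 := ⟨⟨y0, h4⟩, rfl⟩
      have e1 := ih _ _ (by rw [delE, List.length_set]; exact hL) h
      have e2 := chk_sound hL h5 l 0 0 h6
      refine (swapOn_congr ?_ _ _).trans (e2.trans e1)
      rw [bs_zero, W_empty]

/-- Comparison of two adjacency lists. -/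
def same (n : ℕ) (L L' : List ℕ) : Bool :=
  (List.range n).all fun i => (List.range n).all fun j => nb L i j == nb L' i j

theorem same_sound {n : ℕ} {L L' : List ℕ} (h : same n L L' = true) : gr n L = gr n L' := by
  ext i j
  rw [gr_adj, gr_adj]
  simp only [same, List.all_eq_true, List.mem_range, beq_iff_eq] at h
  rw [h i i.2 j j.2]

/-- `L` reduces to `L'`. -/
def reaches (n : ℕ) (L : List ℕ) (ms : List Mv) (L' : List ℕ) : Bool :=
  decide (n ≤ L.length) && (match run n L ms with
    | some M => same n M L'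
    | none => false)

theorem reaches_sound {n : ℕ} {L L' : List ℕ} {ms : List Mv} (h : reaches n L ms L' = true) :
    Z2HomotopyEquivalent (boxSwap (gr n L)) (boxSwap (gr n L')) := by
  unfold reaches at h
  rw [Bool.and_eq_true, decide_eq_true_eq] at h
  obtain ⟨h1, h2⟩ := h
  split at h2
  · rename_i M hM
    rw [← same_sound h2]
    exact run_sound ms L M h1 hM
  · exact absurd h2 (by decide)

end Pool.Agent.W117.Box
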