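import Mathlib
import Pool.Agent.W117.Box3

set_option autoImplicit false
set_option linter.unusedSectionVars false
set_option linter.unusedVariables false

namespace Pool.Agent.W117.Box

open Finset

/-- The three coordinates of a complex number. -/
noncomputable def D (z : ℂ) : Fin 3 → ℝ :=
  ![z.re, -z.re / 2 + √3 / 2 * z.im, -z.re / 2 - √3 / 2 * z.im]

/-- The complex number of three coordinates. -/
noncomputable def Z (d : Fin 3 → ℝ) : ℂ := ⟨d 0 - (d 1 + d 2) / 2, √3 / 2 * (d 1 - d 2)⟩

theorem sqrt3 : √3 * √3 = (3 : ℝ) := Real.mul_self_sqrt (by norm_num)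

theorem D_sum (z : ℂ) : D z 0 + D z 1 + D z 2 = 0 := by
  simp [D]
  ring

theorem Z_D (z : ℂ) : Z (D z) = (3 / 2 : ℝ) • z := by
  apply Complex.ext
  · simp [Z, D]
    ring
  · simp only [Z, D, Matrix.cons_val_one, Matrix.cons_val_zero, Matrix.cons_val,
      Complex.real_smul, Complex.mul_im, Complex.ofReal_re, Complex.ofReal_im]
    linear_combination (z.im / 2) * sqrt3

theorem D_Z (d : Fin 3 → ℝ) (h : d 0 + d 1 + d 2 = 0) (j : Fin 3) : D (Z d) j = 3 / 2 * d j := by
  fin_cases j
  · simp [Z, D]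
    linarith
  · simp [Z, D]
    linear_combination ((d 1 - d 2) / 4) * sqrt3 - (1 / 2) * h
  · simp [Z, D]
    linear_combination (-(d 1 - d 2) / 4) * sqrt3 - (1 / 2) * h

theorem D_smul (c : ℝ) (z : ℂ) (j : Fin 3) : D (c • z) j = c * D z j := by
  fin_cases j
  · simp [D]
  · simp [D]
    ring
  · simp [D]
    ring

theorem D_neg (z : ℂ) (j : Fin 3) : D (-z) j = - D z j := by
  have := D_smul (-1) z j
  simpa using this

theorem Z_smul (c : ℝ) (d : Fin 3 → ℝ) : Z (fun j => c * d j) = c • Z d := by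
  apply Complex.ext
  · simp [Z]
    ring
  · simp [Z]
    ring

theorem Z_neg (d : Fin 3 → ℝ) : Z (fun j => - d j) = - Z d := by
  have := Z_smul (-1) d
  simpa using this

/-- Half of the `ℓ¹` norm. -/
noncomputable def NN (z : ℂ) : ℝ := (|D z 0| + |D z 1| + |D z 2|) / 2

theorem D_eq_zero {z : ℂ} (h0 : D z 0 = 0) (h1 : D z 1 = 0) (h2 : D z 2 = 0) : z = 0 := by
  have e : Z (D z) = 0 := by
    apply Complex.ext
    · simp [Z, h0, h1, h2]
    · simp [Z, h1, h2]
  rw [Z_D] at e
  have h32 : (3 / 2 : ℝ) ≠ 0 := by norm_num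
  exact (smul_eq_zero.1 e).resolve_left h32

theorem NN_pos {z : ℂ} (hz : z ≠ 0) : 0 < NN z := by
  by_contra h
  have h0 := abs_nonneg (D z 0)
  have h1 := abs_nonneg (D z 1)
  have h2 := abs_nonneg (D z 2)
  unfold NN at h
  push Not at h
  apply hz
  apply D_eq_zero
  · exact abs_eq_zero.1 (by linarith)
  · exact abs_eq_zero.1 (by linarith)
  · exact abs_eq_zero.1 (by linarith)

theorem pos_part (x : ℝ) : max x 0 = (|x| + x) / 2 := by
  rcases le_total 0 x with h | h
  · rw [max_eq_left h, abs_of_nonneg h]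
    ring
  · rw [max_eq_right h, abs_of_nonpos h]
    ring

theorem neg_part (x : ℝ) : max (-x) 0 = (|x| - x) / 2 := by
  rw [pos_part, abs_neg]
  ring

variable {V : Type} [Fintype V] [DecidableEq V]

/-- Spread three values along `t`. -/
def spread (t : Fin 3 → V) (c : Fin 3 → ℝ) : V → ℝ := fun w =>
  ∑ j, if w = t j then c j else 0

theorem spread_apply {t : Fin 3 → V} (ht : Function.Injective t) (c : Fin 3 → ℝ) (k : Fin 3) :
    spread t c (t k) = c k := by
  unfold spread
  rw [Finset.sum_eq_single k]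
  · simp
  · intro b _ hb
    rw [if_neg]
    intro h
    exact hb (ht h.symm)
  · simp

theorem spread_supp {t : Fin 3 → V} {c : Fin 3 → ℝ} {w : V} (h : spread t c w ≠ 0) :
    ∃ k, w = t k := by
  by_contra hne
  push Not at hne
  apply h
  unfold spread
  exact Finset.sum_eq_zero fun j _ => if_neg (hne j)

theorem spread_sum {t : Fin 3 → V} (c : Fin 3 → ℝ) : ∑ w, spread t c w = c 0 + c 1 + c 2 := by
  unfold spread
  rw [Finset.sum_comm]
  simp only [Finset.sum_ite_eq', Finset.mem_univ, if_true]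
  rw [Fin.sum_univ_three]

theorem spread_nonneg {t : Fin 3 → V} {c : Fin 3 → ℝ} (h : ∀ j, 0 ≤ c j) (w : V) :
    0 ≤ spread t c w := by
  unfold spread
  refine Finset.sum_nonneg fun j _ => ?_
  split_ifs
  · exact h j
  · exact le_rfl

theorem sum_range3 {t : Fin 3 → V} (ht : Function.Injective t) {x : V → ℝ}
    (hx : ∀ w, x w ≠ 0 → ∃ k, w = t k) : ∑ w, x w = x (t 0) + x (t 1) + x (t 2) := by
  have : x = spread t (fun k => x (t k)) := by
    funext w
    by_cases h : ∃ k, w = t k
    · obtain ⟨k, rfl⟩ := h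
      rw [spread_apply ht]
    · have h1 : x w = 0 := by
        by_contra hne
        exact h (hx w hne)
      have h2 : spread t (fun k => x (t k)) w = 0 := by
        by_contra hne
        exact h (spread_supp hne)
      rw [h1, h2]
  rw [this, spread_sum]
  simp only [spread_apply ht]

/-- The point of the box complex belonging to a complex number. -/
noncomputable def gpt (t : Fin 3 → V) (z : ℂ) : Pt V :=
  (spread t (fun j => max (D z j) 0 / NN z), spread t (fun j => max (-D z j) 0 / NN z))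

/-- The complex number belonging to a point of the box complex. -/
noncomputable def fz (t : Fin 3 → V) (p : Pt V) : ℂ := Z (fun j => p.1 (t j) - p.2 (t j))

theorem continuous_D (j : Fin 3) : Continuous fun z : ℂ => D z j := by
  fin_cases j
  · simp only [D, Fin.zero_eta, Matrix.cons_val_zero]
    exact Complex.continuous_re
  · simp only [D, Fin.mk_one, Matrix.cons_val_one, Matrix.cons_val_zero]
    have h1 := Complex.continuous_re
    have h2 := Complex.continuous_im
    fun_prop
  · simp only [D, Fin.reduceFinMk, Matrix.cons_val]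
    have h1 := Complex.continuous_re
    have h2 := Complex.continuous_im
    fun_prop

theorem continuous_NN : Continuous NN := by
  unfold NN
  have h0 := continuous_D 0
  have h1 := continuous_D 1
  have h2 := continuous_D 2
  fun_prop

theorem sphere_ne_zero (z : Metric.sphere (0 : ℂ) 1) : (z : ℂ) ≠ 0 := by
  intro h
  have := z.2
  rw [mem_sphere_zero_iff_norm, h] at this
  simp at this

theorem gpt_mem {G : SimpleGraph V} {t : Fin 3 → V} (ht : Function.Injective t)
    (hG : ∀ i j, G.Adj i j ↔ ∃ k l, k ≠ l ∧ i = t k ∧ j = t l) {z : ℂ} (hz : z ≠ 0) :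
    gpt t z ∈ boxComplex G := by
  have hN := NN_pos hz
  have hD := D_sum z
  unfold gpt
  refine ⟨fun w => spread_nonneg (fun j => div_nonneg (le_max_right _ _) hN.le) w, ?_,
    fun w => spread_nonneg (c := fun j => max (-D z j) 0 / NN z)
      (fun j => div_nonneg (le_max_right _ _) hN.le) w, ?_, ?_⟩
  · dsimp only
    rw [spread_sum, pos_part, pos_part, pos_part]
    rw [← add_div, ← add_div, div_eq_one_iff_eq hN.ne']
    unfold NN
    linarith
  · dsimp only
    rw [spread_sum, neg_part, neg_part, neg_part]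
    rw [← add_div, ← add_div, div_eq_one_iff_eq hN.ne']
    unfold NN
    linarith
  · intro i j hi hj
    dsimp only at hi hj
    obtain ⟨k, rfl⟩ := spread_supp hi
    obtain ⟨l, rfl⟩ := spread_supp hj
    refine (hG _ _).2 ⟨k, l, ?_, rfl, rfl⟩
    rintro rfl
    rw [spread_apply ht] at hi hj
    rcases le_total 0 (D z k) with h | h
    · apply hj
      rw [max_eq_right (by linarith), zero_div]
    · apply hi
      rw [max_eq_right h, zero_div]

theorem box_facts {G : SimpleGraph V} {t : Fin 3 → V} (ht : Function.Injective t)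
    (hG : ∀ i j, G.Adj i j ↔ ∃ k l, k ≠ l ∧ i = t k ∧ j = t l) {p : Pt V}
    (hp : p ∈ boxComplex G) :
    (∀ w, p.1 w ≠ 0 → ∃ k, w = t k) ∧ (∀ w, p.2 w ≠ 0 → ∃ k, w = t k) ∧
    p.1 (t 0) + p.1 (t 1) + p.1 (t 2) = 1 ∧ p.2 (t 0) + p.2 (t 1) + p.2 (t 2) = 1 ∧
    ∀ k, p.1 (t k) = 0 ∨ p.2 (t k) = 0 := by
  obtain ⟨h1, h2, h3, h4, h5⟩ := hp
  have a1 : ∃ j, p.1 j ≠ 0 := by
    by_contra hne
    push Not at hne
    simp [hne] at h2
  have a2 : ∃ j, p.2 j ≠ 0 := by
    by_contra hne
    push Not at hne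
    simp [hne] at h4
  obtain ⟨j1, hj1⟩ := a1
  obtain ⟨j2, hj2⟩ := a2
  have s1 : ∀ w, p.1 w ≠ 0 → ∃ k, w = t k := by
    intro w hw
    obtain ⟨k, l, -, e, -⟩ := (hG _ _).1 (h5 w j2 hw hj2)
    exact ⟨k, e⟩
  have s2 : ∀ w, p.2 w ≠ 0 → ∃ k, w = t k := by
    intro w hw
    obtain ⟨k, l, -, -, e⟩ := (hG _ _).1 (h5 j1 w hj1 hw)
    exact ⟨l, e⟩
  refine ⟨s1, s2, ?_, ?_, ?_⟩
  · rw [← sum_range3 ht s1, h2]
  · rw [← sum_range3 ht s2, h4]
  · intro k
    by_contra h
    push Not at h
    exact G.irrefl (h5 _ _ h.1 h.2)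

theorem fz_ne_zero {G : SimpleGraph V} {t : Fin 3 → V} (ht : Function.Injective t)
    (hG : ∀ i j, G.Adj i j ↔ ∃ k l, k ≠ l ∧ i = t k ∧ j = t l) {p : Pt V}
    (hp : p ∈ boxComplex G) : fz t p ≠ 0 := by
  obtain ⟨s1, s2, h1, h2, h3⟩ := box_facts ht hG hp
  intro hz
  have e : ∀ j, p.1 (t j) - p.2 (t j) = 0 := by
    intro j
    have := D_Z (fun j => p.1 (t j) - p.2 (t j)) (by linarith) j
    have hz' : Z (fun j => p.1 (t j) - p.2 (t j)) = 0 := hz
    rw [hz'] at this
    have h0 : D 0 j = 0 := by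
      fin_cases j <;> simp [D]
    rw [h0] at this
    linarith
  have z1 : ∀ j, p.1 (t j) = 0 := by
    intro j
    rcases h3 j with h | h
    · exact h
    · have := e j
      rw [h] at this
      linarith
  rw [z1, z1, z1] at h1
  norm_num at h1

theorem gf {G : SimpleGraph V} {t : Fin 3 → V} (ht : Function.Injective t)
    (hG : ∀ i j, G.Adj i j ↔ ∃ k l, k ≠ l ∧ i = t k ∧ j = t l) {p : Pt V}
    (hp : p ∈ boxComplex G) {c : ℝ} (hc : 0 < c) : gpt t (c • fz t p) = p := by
  obtain ⟨s1, s2, h1, h2, h3⟩ := box_facts ht hG hp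
  obtain ⟨n1, -, n2, -, -⟩ := hp
  have hd : ∀ j, D (c • fz t p) j = c * (3 / 2) * (p.1 (t j) - p.2 (t j)) := by
    intro j
    rw [D_smul]
    have := D_Z (fun j => p.1 (t j) - p.2 (t j)) (by linarith) j
    unfold fz
    rw [this]
    ring
  have habs : ∀ j, |p.1 (t j) - p.2 (t j)| = p.1 (t j) + p.2 (t j) := by
    intro j
    rcases h3 j with h | h
    · rw [h, zero_sub, abs_neg, abs_of_nonneg (n2 _), zero_add]
    · rw [h, sub_zero, abs_of_nonneg (n1 _), add_zero]
  have hc' : 0 < c * (3 / 2) := by positivity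
  have hN : NN (c • fz t p) = c * (3 / 2) := by
    have ha : ∀ j, |D (c • fz t p) j| = c * (3 / 2) * (p.1 (t j) + p.2 (t j)) := by
      intro j
      rw [hd, abs_mul, abs_of_pos hc', habs]
    unfold NN
    rw [ha, ha, ha]
    linear_combination (c * (3 / 2) / 2) * (h1 + h2)
  have key : ∀ x : V → ℝ, (∀ w, x w ≠ 0 → ∃ k, w = t k) → ∀ y : Fin 3 → ℝ,
      (∀ k, y k = x (t k)) → spread t y = x := by
    intro x hx y hy
    funext w
    by_cases h : ∃ k, w = t k
    · obtain ⟨k, rfl⟩ := h
      rw [spread_apply ht, hy]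
    · have e1 : x w = 0 := by
        by_contra hne
        exact h (hx w hne)
      have e2 : spread t y w = 0 := by
        by_contra hne
        exact h (spread_supp hne)
      rw [e1, e2]
  unfold gpt
  apply Prod.ext
  · show spread t (fun j => max (D (c • fz t p) j) 0 / NN (c • fz t p)) = p.1
    refine key p.1 s1 _ ?_
    intro k
    rw [hd, hN, pos_part, abs_mul, abs_of_pos hc', habs]
    field_simp
    ring
  · show spread t (fun j => max (-D (c • fz t p) j) 0 / NN (c • fz t p)) = p.2
    refine key p.2 s2 _ ?_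
    intro k
    rw [hd, hN, neg_part, abs_mul, abs_of_pos hc', habs]
    field_simp
    ring

theorem fg {t : Fin 3 → V} (ht : Function.Injective t) {z : ℂ} (hz : z ≠ 0) :
    fz t (gpt t z) = ((3 / 2) / NN z) • z := by
  unfold fz gpt
  simp only [spread_apply ht]
  have : (fun j => max (D z j) 0 / NN z - max (-D z j) 0 / NN z) =
      fun j => (1 / NN z) * D z j := by
    funext j
    rw [pos_part, neg_part]
    ring
  rw [this, Z_smul, Z_D, smul_smul]
  congr 1
  ring

theorem triangle_circle (G : SimpleGraph V) (t : Fin 3 → V) (ht : Function.Injective t)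
    (hG : ∀ i j, G.Adj i j ↔ ∃ k l, k ≠ l ∧ i = t k ∧ j = t l) :
    Z2HomotopyEquivalent (boxSwap G) (fun z : Metric.sphere (0 : ℂ) 1 => -z) := by
  have hfc : Continuous (fz t) := by
    have : Continuous fun p : Pt V => (Complex.equivRealProdCLM.symm
        (p.1 (t 0) - p.2 (t 0) - ((p.1 (t 1) - p.2 (t 1)) + (p.1 (t 2) - p.2 (t 2))) / 2,
          √3 / 2 * ((p.1 (t 1) - p.2 (t 1)) - (p.1 (t 2) - p.2 (t 2))))) := by
      fun_prop
    exact this
  let f : C(boxComplex G, Metric.sphere (0 : ℂ) 1) :=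
    ⟨fun p => ⟨(‖fz t p.1‖⁻¹ : ℝ) • fz t p.1, by
      rw [mem_sphere_zero_iff_norm, norm_smul, norm_inv, norm_norm]
      exact inv_mul_cancel₀ (norm_ne_zero_iff.2 (fz_ne_zero ht hG p.2))⟩, by
      refine Continuous.subtype_mk ?_ _
      have h1 : Continuous fun p : boxComplex G => fz t p.1 := hfc.comp continuous_subtype_val
      exact Continuous.smul (Continuous.inv₀ h1.norm
        fun p => norm_ne_zero_iff.2 (fz_ne_zero ht hG p.2)) h1⟩
  let g : C(Metric.sphere (0 : ℂ) 1, boxComplex G) :=
    ⟨fun z => ⟨gpt t z, gpt_mem ht hG (sphere_ne_zero z)⟩, by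
      refine Continuous.subtype_mk ?_ _
      unfold gpt spread
      have hN := continuous_NN
      refine Continuous.prodMk ?_ ?_
      · refine continuous_pi fun w => ?_
        refine continuous_finsetSum _ fun j _ => ?_
        split_ifs
        · have hD := continuous_D j
          refine Continuous.div (by fun_prop) (by fun_prop) fun z => ?_
          exact (NN_pos (sphere_ne_zero z)).ne'
        · exact continuous_const
      · refine continuous_pi fun w => ?_
        refine continuous_finsetSum _ fun j _ => ?_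
        split_ifs
        · have hD := continuous_D j
          refine Continuous.div (by fun_prop) (by fun_prop) fun z => ?_
          exact (NN_pos (sphere_ne_zero z)).ne'
        · exact continuous_const⟩
  have hgf : g.comp f = ContinuousMap.id _ := by
    ext1 p
    apply Subtype.ext
    exact gf ht hG p.2 (inv_pos.2 (norm_pos_iff.2 (fz_ne_zero ht hG p.2)))
  have hfg : f.comp g = ContinuousMap.id _ := by
    ext1 z
    apply Subtype.ext
    show (‖fz t (gpt t z)‖⁻¹ : ℝ) • fz t (gpt t z) = z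
    have hz := sphere_ne_zero z
    have hz1 : ‖(z : ℂ)‖ = 1 := mem_sphere_zero_iff_norm.1 z.2
    have hpos : 0 < (3 / 2) / NN (z : ℂ) := div_pos (by norm_num) (NN_pos hz)
    rw [fg ht hz, norm_smul, hz1, mul_one, Real.norm_of_nonneg hpos.le, smul_smul,
      inv_mul_cancel₀ hpos.ne', one_smul]
  refine ⟨f, g, ?_, ?_, ?_, ?_⟩
  · intro p
    apply Subtype.ext
    have e : fz t p.1.swap = - fz t p.1 := by
      unfold fz
      rw [← Z_neg]
      congr 1
      funext j
      simp
    show (‖fz t p.1.swap‖⁻¹ : ℝ) • fz t p.1.swap = -((‖fz t p.1‖⁻¹ : ℝ) • fz t p.1)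
    rw [e, norm_neg, smul_neg]
  · intro z
    apply Subtype.ext
    show gpt t (-(z : ℂ)) = (gpt t z).swap
    unfold gpt
    have hN : NN (-(z : ℂ)) = NN z := by
      unfold NN
      rw [D_neg, D_neg, D_neg, abs_neg, abs_neg, abs_neg]
    simp only [hN, D_neg, neg_neg]
    rfl
  · rw [hgf]
    exact ContinuousMap.HomotopicWith.refl _ equivariant_id
  · rw [hfg]
    exact ContinuousMap.HomotopicWith.refl _ equivariant_id

end Pool.Agent.W117.Box
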