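import Mathlib
import Pool.Agent.W117.Box4

set_option autoImplicit false

namespace Pool.Agent.W117.Box

/-- The adjacency masks of the graph `K` with 37 vertices. -/
def LK : List ℕ := [17407445248, 17182896768, 17383598592, 17800694016, 17767138560, 17784179200, 17594642432, 47467986946, 36510236697, 43269488678, 41010069520, 34662383661, 39275462722, 34946940998, 41406431296, 34930294853, 43360190520, 82690738434, 78391559462, 74088253762, 71940768449, 69793285446, 17750492288, 37044486209, 71940715161, 76239907344, 69793240237, 69793285317, 76235737664, 78395797560, 18240897024, 17508091136, 17482536064, 17717199488, 50470060159, 85907865472, 35420766208]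

/-- A proper `3`-colouring of `K`. -/
def colK : List ℕ := [0, 0, 0, 0, 0, 0, 0, 1, 1, 1, 1, 1, 1, 1, 1, 1, 1, 2, 2, 2, 2, 2, 0, 1, 2, 2, 2, 2, 2, 2, 0, 0, 0, 0, 1, 0, 1]

/-- The homomorphism from `K₃ × M` (with `M` the Groetzsch graph) to `K`. -/
def FK : List ℕ := [0, 1, 31, 2, 32, 3, 33, 4, 5, 22, 6, 7, 8, 9, 10, 11, 12, 23, 13, 14, 15, 16, 17, 24, 18, 25, 26, 19, 20, 21, 28, 27, 29]

/-- The adjacency masks of the Groetzsch graph `M`. -/
def LM : List ℕ := [594, 165, 330, 660, 297, 1042, 1029, 1034, 1044, 1033, 992]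

/-- The cycle to which `K` is reduced. -/
def LC5 : List ℕ := [0, 0, 2099200, 0, 0, 0, 0, 0, 0, 0, 0, 33554436, 0, 0, 0, 0, 0, 0, 0, 0, 0, 1073741828, 0, 0, 0, 1073743872, 0, 0, 0, 0, 35651584, 0, 0, 0, 0, 0, 0]

/-- The cycle with a chord. -/
def LC5c : List ℕ := [0, 0, 35653632, 0, 0, 0, 0, 0, 0, 0, 0, 33554436, 0, 0, 0, 0, 0, 0, 0, 0, 0, 1073741828, 0, 0, 0, 1073743876, 0, 0, 0, 0, 35651584, 0, 0, 0, 0, 0, 0]

/-- The triangle. -/
def LT : List ℕ := [0, 0, 33556480, 0, 0, 0, 0, 0, 0, 0, 0, 33554436, 0, 0, 0, 0, 0, 0, 0, 0, 0, 0, 0, 0, 0, 2052, 0, 0, 0, 0, 0, 0, 0, 0, 0, 0, 0]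

/-- The moves of the reduction of `K` to a `5`-cycle. -/
def movesK : List Mv :=
  [ .edge 5 9 35 34 [(false, 1, 2), (false, 20, 28), (false, 25, 2), (false, 28, 35), (true, 11, 34), (true, 16, 34), (true, 18, 34), (true, 26, 34), (true, 29, 34), (false, 2, 33), (false, 33, 35), (false, 24, 35)],
    .edge 5 11 3 34 [(false, 0, 2), (false, 19, 3), (false, 28, 3), (false, 35, 3), (true, 16, 26), (true, 18, 26), (true, 26, 34), (true, 29, 34), (false, 2, 3), (false, 17, 3), (false, 25, 3)],
    .edge 5 18 33 34 [(false, 1, 2), (false, 2, 30), (false, 10, 14), (false, 14, 30), (false, 23, 30), (false, 36, 30), (true, 16, 29), (true, 26, 29), (true, 29, 34), (false, 30, 33), (false, 8, 33)],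
    .fold 5 3,
    .edge 3 11 35 34 [(false, 2, 0), (false, 17, 0), (false, 19, 35), (false, 28, 35), (true, 8, 34), (true, 16, 34), (true, 24, 26), (true, 26, 34), (false, 0, 35), (false, 25, 35), (true, 29, 34)],
    .edge 3 26 30 34 [(false, 2, 0), (false, 7, 0), (false, 12, 30), (false, 14, 30), (false, 36, 30), (true, 8, 24), (true, 24, 34), (true, 29, 34), (false, 0, 30), (false, 10, 30), (true, 16, 34)],
    .fold 3 4,
    .edge 4 8 35 34 [(false, 0, 31), (false, 18, 21), (false, 19, 21), (false, 21, 35), (true, 10, 34), (true, 16, 34), (true, 24, 25), (true, 25, 34), (false, 31, 35), (false, 17, 35), (true, 29, 34)],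
    .edge 14 26 36 35 [(false, 2, 10), (false, 7, 10), (false, 30, 36), (true, 6, 29), (true, 18, 35), (true, 29, 35), (true, 31, 32), (true, 32, 35), (false, 10, 12), (false, 12, 36), (false, 0, 36)],
    .edge 12 26 36 35 [(false, 0, 7), (false, 10, 7), (false, 30, 36), (true, 1, 24), (true, 24, 35), (true, 29, 35), (true, 32, 35), (false, 7, 36), (false, 2, 36), (true, 6, 35)],
    .fold 26 27,
    .edge 4 10 31 34 [(false, 21, 22), (false, 27, 22), (false, 32, 22), (false, 35, 22), (true, 16, 25), (true, 24, 25), (true, 25, 34), (true, 29, 34), (false, 22, 31), (false, 18, 31)],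
    .edge 10 22 34 35 [(false, 17, 7), (false, 25, 34), (true, 21, 27), (true, 27, 35), (true, 31, 32), (true, 32, 35), (false, 7, 16), (false, 16, 34), (false, 29, 34), (true, 18, 35)],
    .edge 4 16 22 34 [(false, 33, 22), (false, 35, 22), (true, 25, 29), (true, 29, 34), (false, 19, 22), (false, 20, 22), (false, 21, 22), (false, 27, 22), (false, 28, 22), (true, 24, 34)],
    .fold 4 30,
    .edge 16 22 7 35 [(false, 17, 7), (false, 29, 7), (false, 34, 7), (true, 20, 27), (true, 27, 33), (true, 33, 35), (false, 25, 7), (true, 19, 35), (true, 21, 35), (true, 28, 35)],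
    .edge 7 22 34 35 [(false, 17, 34), (false, 25, 34), (false, 29, 34), (true, 1, 32), (true, 32, 33), (true, 33, 35), (true, 20, 35), (true, 24, 35), (true, 27, 35)],
    .fold 22 30,
    .edge 16 33 9 35 [(false, 34, 7), (true, 20, 35), (true, 27, 35), (true, 28, 35), (false, 7, 9), (false, 17, 9), (false, 18, 9), (false, 29, 9), (true, 19, 35), (true, 21, 35)],
    .fold 16 36,
    .edge 7 33 34 35 [(false, 17, 34), (false, 18, 9), (true, 1, 35), (true, 20, 24), (true, 24, 35), (true, 32, 35), (false, 9, 34), (false, 29, 34), (true, 27, 35)],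
    .edge 10 21 36 35 [(false, 1, 2), (false, 2, 30), (false, 6, 30), (false, 30, 36), (true, 18, 35), (true, 27, 35), (true, 31, 35), (false, 8, 36), (true, 32, 35)],
    .edge 10 27 36 35 [(false, 2, 30), (false, 30, 36), (true, 18, 35), (true, 32, 35), (false, 7, 36), (false, 0, 36), (false, 6, 36), (true, 31, 35)],
    .fold 10 14,
    .edge 7 27 36 35 [(false, 0, 30), (false, 6, 30), (false, 30, 36), (true, 20, 24), (true, 24, 35), (false, 2, 36), (true, 1, 35), (true, 32, 35)],
    .edge 7 20 9 35 [(false, 0, 9), (false, 30, 9), (false, 31, 9), (false, 36, 9), (true, 1, 24), (true, 24, 35), (false, 6, 9), (true, 32, 35)],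
    .fold 7 12,
    .edge 0 27 30 34 [(false, 36, 30), (true, 11, 15), (true, 15, 34), (true, 20, 34), (true, 23, 34), (true, 24, 34), (false, 2, 6), (false, 6, 30), (true, 8, 34)],
    .fold 27 21,
    .edge 9 33 34 35 [(false, 17, 18), (false, 18, 34), (true, 1, 2), (true, 2, 35), (false, 29, 34), (true, 20, 35), (true, 24, 35), (true, 25, 35), (true, 28, 35)],
    .fold 33 30,
    .edge 14 32 34 35 [(false, 19, 12), (false, 25, 28), (false, 28, 34), (true, 6, 35), (true, 29, 35), (true, 31, 35), (false, 12, 34), (false, 17, 34), (true, 18, 35)],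
    .fold 14 23,
    .edge 12 32 34 35 [(false, 17, 19), (false, 19, 34), (false, 28, 34), (true, 1, 6), (true, 6, 35), (false, 25, 34), (true, 24, 35), (true, 29, 35)],
    .fold 32 30,
    .fold 12 13,
    .edge 15 29 36 35 [(false, 30, 36), (true, 0, 6), (true, 2, 6), (true, 6, 35), (true, 17, 35), (true, 25, 35), (false, 13, 23), (false, 23, 36)],
    .edge 23 29 36 35 [(false, 30, 36), (true, 6, 35), (true, 17, 18), (true, 18, 35), (false, 13, 36), (true, 0, 35), (true, 31, 35)],
    .fold 29 25,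
    .edge 13 24 9 35 [(false, 30, 9), (false, 31, 9), (false, 36, 9), (true, 1, 2), (true, 2, 25), (true, 25, 35), (false, 0, 9), (true, 6, 35)],
    .fold 24 20,
    .edge 0 20 31 34 [(false, 30, 6), (true, 8, 23), (true, 15, 23), (true, 23, 34), (false, 6, 31), (false, 9, 31), (false, 36, 31), (true, 11, 34)],
    .fold 0 35,
    .fold 20 28,
    .edge 23 31 34 35 [(false, 28, 34), (true, 6, 35), (true, 17, 18), (true, 18, 35), (false, 8, 34), (false, 25, 34)],
    .edge 28 31 34 30 [(true, 6, 30), (true, 9, 11), (true, 11, 30), (true, 36, 30), (false, 25, 34), (false, 8, 34)],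
    .edge 8 31 34 35 [(false, 25, 34), (true, 17, 35), (true, 18, 35), (true, 19, 35), (true, 21, 35)],
    .fold 31 30,
    .fold 8 36,
    .edge 18 23 17 36 [(false, 35, 17), (true, 1, 30), (true, 30, 36), (false, 6, 17), (true, 2, 36)],
    .fold 23 15,
    .fold 18 21,
    .edge 9 28 11 35 [(false, 30, 11), (false, 36, 11), (true, 2, 25), (true, 25, 35), (false, 6, 11), (true, 1, 35)],
    .fold 28 19,
    .fold 9 13,
    .edge 15 17 11 35 [(false, 30, 11), (false, 36, 11), (true, 2, 25), (true, 25, 35), (false, 1, 11), (true, 6, 35)],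
    .fold 17 19,
    .fold 15 13,
    .fold 1 6,
    .edge 35 36 25 13 [(false, 19, 25), (true, 11, 13), (false, 21, 25), (true, 34, 13)],
    .fold 35 2,
    .fold 34 21,
    .fold 36 30,
    .edge 6 13 2 21 [(false, 25, 2), (true, 19, 21)],
    .fold 6 30,
    .fold 13 11,
    .fold 19 25 ]

/-- The moves from the cycle with a chord to the cycle. -/
def movesC : List Mv :=
  [.edge 2 25 30 21 [(false, 11, 30), (true, 11, 21)]]

/-- The moves from the cycle with a chord to the triangle. -/
def movesT : List Mv := [.fold 30 2, .fold 21 11]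

/-- The vertices of the triangle. -/
def tri : Fin 3 → Fin 37 := ![2, 11, 25]

theorem reachesK : reaches 37 LK movesK LC5 = true := by decide +kernel

theorem reachesC : reaches 37 LC5c movesC LC5 = true := by decide +kernel

theorem reachesT : reaches 37 LC5c movesT LT = true := by decide +kernel

theorem tri_inj : Function.Injective tri := by decide

theorem tri_adj : ∀ i j : Fin 37, (gr 37 LT).Adj i j ↔ ∃ k l, k ≠ l ∧ i = tri k ∧ j = tri l := by
  have : ∀ i j : Fin 37, nb LT i j = true ↔ ∃ k l, k ≠ l ∧ i = tri k ∧ j = tri l := by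
    decide +kernel
  exact this

/-- The box complex of `K` is `ℤ₂`-homotopy equivalent to the circle. -/
theorem boxK : Z2HomotopyEquivalent (boxSwap (gr 37 LK)) (fun z : Metric.sphere (0 : ℂ) 1 => -z) :=
  (reaches_sound reachesK).trans ((reaches_sound reachesC).symm.trans
    ((reaches_sound reachesT).trans (triangle_circle _ tri tri_inj tri_adj)))

theorem free : ((List.range 37).all fun i => (List.range 37).all fun j => !(nb LK i j) ||
    (List.range 37).all fun k => !(nb LK j k && nb LK i k)) = true := by decide +kernel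

theorem no_triangle (i j k : Fin 37) (h1 : (gr 37 LK).Adj i j) (h2 : (gr 37 LK).Adj j k)
    (h3 : (gr 37 LK).Adj i k) : False := by
  have h := free
  simp only [List.all_eq_true, List.mem_range, Bool.or_eq_true, Bool.not_eq_true',
    Bool.and_eq_false_iff] at h
  rw [gr_adj] at h1 h2 h3
  rcases h i i.2 j j.2 with h' | h'
  · rw [h1] at h'
    exact absurd h' (by decide)
  · rcases h' k k.2 with h'' | h''
    · rw [h2] at h''
      exact absurd h'' (by decide)
    · rw [h3] at h''
      exact absurd h'' (by decide)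

theorem col_ok : ∀ i j : Fin 37, nb LK i j = true →
    (Fin.ofNat 3 (colK.getD i 0) : Fin 3) ≠ Fin.ofNat 3 (colK.getD j 0) := by decide +kernel

/-- The value of the homomorphism. -/
def FKv (g : Fin 3) (h : Fin 11) : Fin 37 := Fin.ofNat 37 (FK.getD (11 * g + h) 0)

theorem hom_ok : ∀ g g' : Fin 3, g ≠ g' → ∀ h h' : Fin 11, nb LM h h' = true →
    nb LK (FKv g h) (FKv g' h') = true := by decide +kernel

theorem groetzsch_aux : ∀ c0 c1 : Fin 3, c0 ≠ c1 → ∀ c2 : Fin 3, c1 ≠ c2 → ∀ c3 : Fin 3, c2 ≠ c3 →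
    ∀ c4 : Fin 3, c3 ≠ c4 → c4 ≠ c0 → ∀ e d0 : Fin 3, d0 ≠ e → d0 ≠ c1 → d0 ≠ c4 →
    ∀ d1 : Fin 3, d1 ≠ e → d1 ≠ c0 → d1 ≠ c2 → ∀ d2 : Fin 3, d2 ≠ e → d2 ≠ c1 → d2 ≠ c3 →
    ∀ d3 : Fin 3, d3 ≠ e → d3 ≠ c2 → d3 ≠ c4 → ∀ d4 : Fin 3, d4 ≠ e → d4 ≠ c3 → d4 ≠ c0 →
    False := by decide +kernel

theorem groetzsch_not_col (c : Fin 11 → Fin 3)
    (hc : ∀ i j : Fin 11, nb LM i j = true → c i ≠ c j) : False :=
  groetzsch_aux (c 0) (c 1) (hc _ _ (by decide)) (c 2) (hc _ _ (by decide)) (c 3)
    (hc _ _ (by decide)) (c 4) (hc _ _ (by decide)) (hc _ _ (by decide)) (c 10) (c 5)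
    (hc _ _ (by decide)) (hc _ _ (by decide)) (hc _ _ (by decide)) (c 6)
    (hc _ _ (by decide)) (hc _ _ (by decide)) (hc _ _ (by decide)) (c 7)
    (hc _ _ (by decide)) (hc _ _ (by decide)) (hc _ _ (by decide)) (c 8)
    (hc _ _ (by decide)) (hc _ _ (by decide)) (hc _ _ (by decide)) (c 9)
    (hc _ _ (by decide)) (hc _ _ (by decide)) (hc _ _ (by decide))

end Pool.Agent.W117.Box
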